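import Pool.Agent.KS6_5.SP.Bal
import Pool.Graph.R_seed8.Y1.TS.Split

/-!
# Numbers of weight one supported at one place: angle rank, and the splitting of the classes
-/

set_option autoImplicit false
set_option linter.unusedSectionVars false
set_option linter.unusedVariables false

namespace Pool.Agent.KS6_5.SP

open NumberField Module TensorProduct IntermediateField
open Pool.Agent.H204R3.CM Pool.Agent.H204R3.SP Pool.Agent.H204R3.GP Pool.Agent.Y137.MV
  Pool.Agent.Y137.SL Pool.Agent.TH121.KT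

noncomputable section

variable {p : ℕ} [Fact p.Prime] {a : ℕ}

theorem natp_ne {A : Type*} [Field A] [CharZero A] (p a : ℕ) [Fact p.Prime] :
    (p : A) ^ a ≠ 0 := pow_ne_zero a (Nat.cast_ne_zero.2 (Fact.out : p.Prime).ne_zero)

/-- the number of weight zero of a Weil number of weight one -/
theorem IsWeilOne.angle {E : Type} [Field E] [NumberField E] [IsCMField E] {π : E}
    (h : IsWeilOne p a π) : IsWeilZero p (SP.angle p a π) where
  unitary := by
    intro φ
    have h1 : ‖φ π‖ ^ 2 = (p : ℝ) ^ a := by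
      have h2 := congrArg (fun x => ‖φ x‖) h.weight
      simp only [map_mul, norm_mul, map_pow, map_natCast, norm_pow, Complex.norm_natCast] at h2
      have h3 : ‖φ (IsCMField.complexConj E π)‖ = ‖φ π‖ := by
        have h4 := IsCMField.complexEmbedding_complexConj E φ π
        rw [h4]
        exact Complex.norm_conj _
      rw [h3] at h2
      rw [sq]
      exact h2
    rw [SP.angle, map_div₀, map_pow, map_pow, map_natCast, norm_div, norm_pow, norm_pow,
      Complex.norm_natCast, h1]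
    exact div_self (pow_ne_zero a (Nat.cast_ne_zero.2 (Fact.out : p.Prime).ne_zero))
  integral := ⟨a, by
    rw [SP.angle, mul_div_cancel₀ _ (natp_ne p a)]
    exact h.integral.pow 2⟩
  powers := by
    intro s hs
    have h1 := h.powers (2 * s) (by positivity)
    rw [eq_top_iff, ← h1, IntermediateField.adjoin_simple_le_iff]
    have h2 : π ^ (2 * s) = ((SP.angle p a π) ^ s) * (((p : ℚ) ^ a) ^ s : ℚ) := by
      rw [SP.angle, div_pow, ← pow_mul]
      push_cast
      rw [div_mul_cancel₀ _ (pow_ne_zero s (natp_ne p a))]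
    rw [h2]
    refine mul_mem (IntermediateField.mem_adjoin_simple_self ℚ _) ?_
    exact (IntermediateField.adjoin ℚ {SP.angle p a π ^ s}).algebraMap_mem _

variable {ι : Type} [Fintype ι] {E : ι → Type} [∀ i, Field (E i)] [∀ i, NumberField (E i)]
  [∀ i, IsCMField (E i)] {π : ∀ i, E i} {F : IntermediateField ℚ Qb} [FiniteDimensional ℚ F]

/-- the conditions on a family of Weil numbers of weight one -/
structure OnePlaceWeilOne (p : ℕ) [Fact p.Prime] (a : ℕ) (F : IntermediateField ℚ Qb)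
    (π : ∀ i, E i) : Prop where
  weil : ∀ i, IsWeilOne p a (π i)
  real : ∀ i, ContainsReal F (E i)
  place : ∀ i, AtOnePlace p F (angle p a (π i))
  diff : Incommensurable fun i => angle p a (π i)

theorem OnePlaceWeilOne.family (H : OnePlaceWeilOne p a F π) :
    OnePlaceFamily p F (fun i => angle p a (π i)) where
  weil i := (H.weil i).angle
  real := H.real
  place := H.place
  diff := H.diff

/-- the relations between the values in a field -/
theorem balanced_L (H : OnePlaceWeilOne p a F π) (L : IntermediateField ℚ Qb)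
    {κ : Type*} [Fintype κ] [DecidableEq (Σ i, (E i →+* L))] (I : κ → Σ i, (E i →+* L))
    (N : ℕ) (hN : 0 < N) (β : L) (x₀ : ℚ) (hx₀ : x₀ ≠ 0)
    (hrel : ∏ l, (val π (I l)) ^ N = β ^ N * (x₀ : L))
    (i : ι) (hβ : NotOver F (E i) (β : Qb) ∨ SmallerSlopes p (angle p a (π i)) 2 1 (β : Qb))
    (φ : E i →+* L) :
    (Finset.univ.filter (fun l => I l = ⟨i, φ⟩)).card =
      (Finset.univ.filter (fun l => I l = bar ⟨i, φ⟩)).card := by
  classical
  obtain ⟨ιp⟩ : Nonempty (Qb →ₐ[ℚ] PadicAlgCl p) := ⟨IsAlgClosed.lift⟩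
  have hπ0 : ∀ i, π i ≠ 0 := by
    intro i h0
    have h1 := (H.weil i).weight
    rw [h0, zero_mul] at h1
    exact natp_ne p a h1.symm
  let J : (Σ i, (E i →+* L)) → Σ i, (E i →+* Qb) := fun x => ⟨x.1, (L.val : L →+* Qb).comp x.2⟩
  have hJ : Function.Injective J := by
    rintro ⟨a, φ⟩ ⟨b, ψ⟩ h
    simp only [J, Sigma.mk.injEq] at h
    obtain ⟨rfl, h⟩ := h
    have h1 : φ = ψ := by
      ext x
      exact RingHom.congr_fun (eq_of_heq h) x
    rw [h1]
  have hJb : ∀ x, J (bar x) = cjS (J x) := fun x => rfl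
  let al : (Σ i, (E i →+* Qb)) → Qb := fun z => z.2 (angle p a (π z.1))
  let cnt : (Σ i, (E i →+* Qb)) → ℕ := fun z => (Finset.univ.filter (fun l => J (I l) = z)).card
  have hsum : ∀ (f : (Σ i, (E i →+* Qb)) → Qb), ∏ l, f (J (I l)) = ∏ z, (f z) ^ cnt z := by
    intro f
    rw [← Finset.prod_fiberwise (s := Finset.univ) (g := fun l => J (I l))]
    refine Finset.prod_congr rfl fun z _ => ?_
    have h1 : ∀ l ∈ Finset.univ.filter (fun l => J (I l) = z), f (J (I l)) = f z := by
      intro l hl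
      rw [(Finset.mem_filter.1 hl).2]
    rw [Finset.prod_congr rfl h1, Finset.prod_const]
  have hal : ∀ x : Σ i, (E i →+* L), ((val π x : L) : Qb) ^ 2 = al (J x) * (p : Qb) ^ a := by
    intro x
    change (L.val (x.2 (π x.1))) ^ 2 = L.val (x.2 (angle p a (π x.1))) * (p : Qb) ^ a
    rw [angle, map_div₀, map_div₀, map_pow, map_pow, map_pow, map_pow, map_natCast, map_natCast,
      div_mul_cancel₀ _ (natp_ne p a)]
  have hal0 : ∀ z, al z ≠ 0 := by
    intro z
    exact (_root_.map_ne_zero _).2 (alpha_ne (H.weil z.1).angle.unitary)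
  have halc : ∀ z, al (cjS z) = (al z)⁻¹ := by
    intro z
    exact cj_val (H.weil z.1).angle.unitary z.2
  have hcc : ∀ z : Σ i, (E i →+* Qb), cjS (cjS z) = z := by
    rintro ⟨i, σ⟩
    change (⟨i, cj (cj σ)⟩ : Σ i, (E i →+* Qb)) = ⟨i, σ⟩
    rw [cj_cj]
  have hβ0 : (β : Qb) ≠ 0 := by
    intro h0
    have h1 : β = 0 := Subtype.ext h0
    rw [h1, zero_pow hN.ne', zero_mul] at hrel
    obtain ⟨l, -, hl⟩ := Finset.prod_eq_zero_iff.1 hrel
    exact pow_ne_zero N ((_root_.map_ne_zero (I l).2).2 (hπ0 _)) hl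
  have h2 : (∏ l, al (J (I l)) ^ N) * ((p : Qb) ^ a) ^ (N * Fintype.card κ) =
      (β : Qb) ^ (2 * N) * (x₀ : Qb) ^ 2 := by
    have h3 := congrArg (fun z : L => (z : Qb) ^ 2) hrel
    have h4 : ((β ^ N * (x₀ : L) : L) : Qb) ^ 2 = (β : Qb) ^ (2 * N) * (x₀ : Qb) ^ 2 := by
      push_cast
      ring
    rw [h4] at h3
    rw [← h3]
    have h5 : ((∏ l, (val π (I l)) ^ N : L) : Qb) = ∏ l, ((val π (I l) : L) : Qb) ^ N := by
      change L.val (∏ l, (val π (I l)) ^ N) = ∏ l, (L.val (val π (I l))) ^ N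
      rw [map_prod]
      simp only [map_pow]
    rw [h5, ← Finset.prod_pow]
    have h6 : ∀ l, (((val π (I l) : L) : Qb) ^ N) ^ 2 = al (J (I l)) ^ N * ((p : Qb) ^ a) ^ N := by
      intro l
      rw [← pow_mul, mul_comm N 2, pow_mul, hal, mul_pow]
    rw [Finset.prod_congr rfl fun l _ => h6 l, Finset.prod_mul_distrib, Finset.prod_const,
      Finset.card_univ, pow_mul ((p : Qb) ^ a) N]
  have h7 : (∏ z : Σ i, (E i →+* Qb), (z.2 (angle p a (π z.1))) ^ (N * cnt (cjS z))) *
      (β : Qb) ^ (2 * N) = (((((p : ℚ) ^ a) ^ (N * Fintype.card κ)) / x₀ ^ 2 : ℚ) : Qb) := by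
    have h8 : ∏ z : Σ i, (E i →+* Qb), (z.2 (angle p a (π z.1))) ^ (N * cnt (cjS z)) =
        (∏ l, al (J (I l)) ^ N)⁻¹ := by
      rw [hsum (fun z => al z ^ N), ← Finset.prod_inv_distrib]
      refine Fintype.prod_equiv (Function.Involutive.toPerm cjS hcc) _ _ fun z => ?_
      change al z ^ (N * cnt (cjS z)) = ((al (cjS z) ^ N) ^ cnt (cjS z))⁻¹
      rw [halc, inv_pow, inv_pow, inv_inv, ← pow_mul]
    rw [h8]
    have h9 : ∏ l, al (J (I l)) ^ N ≠ 0 :=
      Finset.prod_ne_zero_iff.2 fun l _ => pow_ne_zero _ (hal0 _)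
    have hx1 : (x₀ : Qb) ≠ 0 := by exact_mod_cast hx₀
    push_cast
    rw [eq_div_iff (pow_ne_zero 2 hx1), mul_assoc, ← h2, inv_mul_cancel_left₀ h9]
  have h10 := balanced_qb H.family ιp (fun z => cnt (cjS z)) (fun _ => N) (fun _ => hN) (2 * N) β
    hβ0 _ h7 (J ⟨i, φ⟩) (by
      rcases hβ with h | ⟨c, hc⟩
      · exact Or.inl h
      · refine Or.inr ⟨c, fun σ l l' hl => ?_⟩
        have h1 := hc σ l l' hl
        have hN' : (0 : ℝ) < N := Nat.cast_pos.2 hN
        push_cast
        have h2 := mul_lt_mul_of_pos_left h1 hN'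
        calc 2 * (N : ℝ) * |Real.log ‖l (β : Qb)‖ - c|
            = N * (2 * |Real.log ‖l (β : Qb)‖ - c|) := by ring
          _ < N * (1 * |Real.log ‖l' (σ (angle p a (π i)))‖|) := h2
          _ = N * |Real.log ‖l' (σ (angle p a (π i)))‖| := by ring)
  simp only [hcc] at h10
  have h11 : ∀ x : Σ i, (E i →+* L), (Finset.univ.filter (fun l => I l = x)).card = cnt (J x) := by
    intro x
    simp only [cnt]
    congr 1
    ext l
    simp only [Finset.mem_filter, Finset.mem_univ, true_and]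
    exact ⟨fun h => by rw [h], fun h => hJ h⟩
  rw [h11, h11, hJb]
  exact h10.symm

theorem small_one {E : Type} [Field E] [NumberField E] [IsCMField E] {α : E}
    (h : IsWeilZero p α) : SmallerSlopes p α 2 1 (1 : Qb) := by
  refine ⟨0, fun σ l l' h1 => ?_⟩
  rw [map_one, norm_one, Real.log_one, sub_zero, abs_zero, mul_zero, one_mul, abs_pos]
  intro h0
  have h2 : 0 < ‖l' (σ α)‖ := norm_pos' (ι := l') h.unitary σ
  exact h1 (Real.eq_one_of_pos_of_log_eq_zero h2 h0)

theorem neat_of_onePlace (H : OnePlaceWeilOne p a F π) (L : IntermediateField ℚ Qb) :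
    Neat p a π L := by
  classical
  intro m M hM I hprod y
  exact balanced_L H L I M hM 1 (((p : ℚ) ^ a) ^ (m * M)) (pow_ne_zero _ (natp_ne p a)) (by
    rw [hprod, one_pow, one_mul]
    push_cast
    rfl) y.1 (Or.inr (small_one (H.weil y.1).angle)) y.2

theorem forces_of_onePlace (H : OnePlaceWeilOne p a F π) (L : IntermediateField ℚ Qb)
    [NumberField L] (β : L) (i : ι)
    (hβ : NotOver F (E i) (β : Qb) ∨ SmallerSlopes p (angle p a (π i)) 2 1 (β : Qb)) :
    Forces π β i := by
  classical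
  intro K N I hN hprod φ
  exact balanced_L H L I N hN β 1 one_ne_zero (by
    rw [← hprod]
    push_cast
    rw [mul_one]) i hβ φ

end

end Pool.Agent.KS6_5.SP
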