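import Pool.Graph.R_seed8.TH121.KT.Final
import Pool.Graph.R_seed8.W902.TB.Gen
import Pool.Graph.R_seed8.H485R3.Exact.ExoticMain

/-!
# Galois automorphisms, places and embeddings
-/

set_option autoImplicit false
set_option linter.unusedSectionVars false

namespace Pool.Agent.KS6_5.SP

open NumberField Polynomial Pool.Agent.TH121.KT

noncomputable section

/-- two embeddings of the algebraic numbers differ by an automorphism -/
theorem exists_aut {Ω : Type*} [Field Ω] [CharZero Ω] (a b : Qb →+* Ω) :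
    ∃ k : GQ, ∀ x, b x = a (k x) := by
  let a' : Qb →ₐ[ℚ] Ω := a.toRatAlgHom
  let b' : Qb →ₐ[ℚ] Ω := b.toRatAlgHom
  have hr : ∀ x, b' x ∈ a'.fieldRange := by
    intro x
    have h1 : aeval (b x) (minpoly ℚ x) = 0 := by
      have := Polynomial.aeval_algHom_apply b' x (minpoly ℚ x)
      rw [minpoly.aeval, map_zero] at this
      exact this
    obtain ⟨y, -, hy⟩ := exists_root a (minpoly.ne_zero (Algebra.IsIntegral.isIntegral x)) h1
    exact ⟨y, hy⟩
  let e : Qb ≃ₐ[ℚ] a'.fieldRange := AlgEquiv.ofInjectiveField a'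
  let f : Qb →ₐ[ℚ] a'.fieldRange := b'.codRestrict a'.fieldRange.toSubalgebra hr
  let k₀ : Qb →ₐ[ℚ] Qb := (e.symm : a'.fieldRange →ₐ[ℚ] Qb).comp f
  have hb : Function.Bijective k₀ := Algebra.IsAlgebraic.algHom_bijective k₀
  refine ⟨AlgEquiv.ofBijective k₀ hb, fun x => ?_⟩
  have h1 : e (k₀ x) = f x := e.apply_symm_apply _
  have h2 := congrArg (fun y : a'.fieldRange => (y : Ω)) h1
  exact h2.symm

/-- **Places of a field above a place of a subfield are conjugate.** -/
theorem places_conj {p : ℕ} [Fact p.Prime] (ι : Qb →+* PadicAlgCl p) (F : IntermediateField ℚ Qb)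
    [FiniteDimensional ℚ F] (g g' : GQ) (h : ∀ x ∈ F, ‖ι (g x)‖ = ‖ι (g' x)‖) :
    ∃ k : GQ, (∀ x ∈ F, k x = x) ∧ ∀ y, ‖ι (g' y)‖ = ‖ι (g (k y))‖ := by
  have hnf : NumberField F := ⟨⟩
  let e : F →+* PadicAlgCl p := (ι.comp (g : Qb →+* Qb)).comp (algebraMap F Qb)
  let e' : F →+* PadicAlgCl p := (ι.comp (g' : Qb →+* Qb)).comp (algebraMap F Qb)
  obtain ⟨τ, hτ⟩ := Pool.Agent.W902.TB.alg_of_norm e e' fun x => h x x.2
  let a : Qb →+* PadicAlgCl p := (τ : PadicAlgCl p →+* PadicAlgCl p).comp (ι.comp (g : Qb →+* Qb))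
  let b : Qb →+* PadicAlgCl p := ι.comp (g' : Qb →+* Qb)
  obtain ⟨k, hk⟩ := exists_aut a b
  refine ⟨k, fun x hx => ?_, fun y => ?_⟩
  · apply a.injective
    rw [← hk]
    exact hτ ⟨x, hx⟩
  · have h1 : ι (g' y) = τ (ι (g (k y))) := hk y
    rw [h1, Pool.Agent.W902.TB.norm_alg]

/-- A number all of whose absolute values are at most one, and are one at the complex places, is
a root of unity. -/
theorem torsion_of_norm (z : Qb) (h1 : ∀ (l : ℕ) [Fact l.Prime] (e : Qb →+* PadicAlgCl l),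
    ‖e z‖ ≤ 1) (h2 : ∀ φ : Qb →+* ℂ, ‖φ z‖ = 1) : ∃ r : ℕ, 0 < r ∧ z ^ r = 1 := by
  let L : IntermediateField ℚ Qb :=
    IntermediateField.normalClosure ℚ (IntermediateField.adjoin ℚ {z}) Qb
  have hfd : FiniteDimensional ℚ (IntermediateField.adjoin ℚ {z}) :=
    IntermediateField.adjoin.finiteDimensional (Algebra.IsIntegral.isIntegral z)
  have hfL : FiniteDimensional ℚ L := normalClosure.is_finiteDimensional ℚ _ Qb
  have hnL : Normal ℚ L := normalClosure.normal ℚ _ Qb
  have hz : z ∈ L := by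
    have h : IntermediateField.adjoin ℚ {z} ≤ L :=
      IntermediateField.le_normalClosure (IntermediateField.adjoin ℚ {z})
    exact h (IntermediateField.mem_adjoin_simple_self ℚ z)
  have hext : ∀ {Ω : Type} [Field Ω] [CharZero Ω] [IsAlgClosed Ω] (e : L →+* Ω),
      ∃ e' : Qb →+* Ω, ∀ x : L, e' x = e x := by
    intro Ω _ _ _ e
    let _ : Algebra L Ω := e.toAlgebra
    have _ : Algebra.IsAlgebraic L Qb := Algebra.IsAlgebraic.tower_top (K := ℚ) L
    let f : Qb →ₐ[L] Ω := IsAlgClosed.lift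
    exact ⟨f.toRingHom, fun x => f.commutes x⟩
  obtain ⟨r, hr, h⟩ := Pool.Agent.H485R3.Exact.root_of_unity (L := L) ⟨z, hz⟩
    (fun l _ e => by
      obtain ⟨e', he'⟩ := hext (Ω := PadicAlgCl l) (e : L →+* PadicAlgCl l)
      have h3 := h1 l e'
      rw [he' ⟨z, hz⟩] at h3
      exact h3)
    (fun φ => by
      obtain ⟨φ', hφ'⟩ := hext (Ω := ℂ) (φ : L →+* ℂ)
      have h3 := h2 φ'
      rw [hφ' ⟨z, hz⟩] at h3
      exact h3)
  refine ⟨r, hr, ?_⟩
  have h4 := congrArg (fun y : L => (y : Qb)) h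
  simpa using h4

/-- an embedding which agrees with `σ` on the real elements is `σ` or its conjugate -/
theorem eq_or_cj {K : Type} [Field K] [NumberField K] [IsCMField K] {A : Type*} [Field A]
    [CharZero A] (σ τ : K →+* A)
    (h : ∀ x, IsCMField.complexConj K x = x → τ x = σ x) : τ = σ ∨ τ = cj σ := by
  have hne : ∃ y : K, IsCMField.complexConj K y ≠ y := by
    by_contra hc
    push Not at hc
    exact IsCMField.complexConj_ne_one K (AlgEquiv.ext hc)
  obtain ⟨y, hy⟩ := hne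
  let d : K := y - IsCMField.complexConj K y
  have hd0 : d ≠ 0 := sub_ne_zero.2 hy.symm
  have hd : IsCMField.complexConj K d = - d := by
    simp only [d, map_sub, IsCMField.complexConj_apply_apply]
    ring
  have hτd : τ d = σ d ∨ τ d = - σ d := by
    have h1 : τ (d * d) = σ (d * d) := h _ (by rw [map_mul, hd]; ring)
    rw [map_mul, map_mul] at h1
    exact mul_self_eq_mul_self_iff.1 h1
  have hdec : ∀ x : K, ∃ a b : K, IsCMField.complexConj K a = a ∧ IsCMField.complexConj K b = b ∧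
      x = a + b * d := by
    intro x
    refine ⟨(x + IsCMField.complexConj K x) / 2, (x - IsCMField.complexConj K x) / (2 * d),
      ?_, ?_, ?_⟩
    · rw [map_div₀, map_add, IsCMField.complexConj_apply_apply, map_ofNat]
      ring
    · rw [map_div₀, map_sub, IsCMField.complexConj_apply_apply, map_mul, map_ofNat, hd]
      rw [show (2 : K) * -d = - (2 * d) by ring, div_neg, ← neg_div, neg_sub]
    · field_simp
      ring
  rcases hτd with h1 | h1
  · left
    ext x
    obtain ⟨a, b, ha, hb, rfl⟩ := hdec x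
    rw [map_add, map_add, map_mul, map_mul, h a ha, h b hb, h1]
  · right
    ext x
    obtain ⟨a, b, ha, hb, rfl⟩ := hdec x
    rw [cj_apply, map_add, map_add (IsCMField.complexConj K), map_mul, map_mul
      (IsCMField.complexConj K), ha, hb, hd, map_add, map_mul, h a ha, h b hb, h1, map_neg]

/-- the norm of a `p`-adic number is a rational power of `p` -/
theorem norm_pow_eq_zpow {p : ℕ} [Fact p.Prime] (y : PadicAlgCl p) (hy : y ≠ 0) :
    ∃ (n : ℕ) (z : ℤ), 0 < n ∧ ‖y‖ ^ n = (p : ℝ) ^ z := by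
  have hint : IsIntegral ℚ_[p] y := Algebra.IsIntegral.isIntegral y
  have hn : 0 < (minpoly ℚ_[p] y).natDegree := minpoly.natDegree_pos hint
  have hc : (minpoly ℚ_[p] y).coeff 0 ≠ 0 := minpoly.coeff_zero_ne_zero hint hy
  have h1 := spectralNorm.spectralNorm_eq_norm_coeff_zero_rpow ℚ_[p] (PadicAlgCl p) y
  rw [PadicAlgCl.spectralNorm_eq] at h1
  refine ⟨(minpoly ℚ_[p] y).natDegree, -((minpoly ℚ_[p] y).coeff 0).valuation, hn, ?_⟩
  rw [h1, one_div, Real.rpow_inv_natCast_pow (norm_nonneg _) hn.ne',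
    Padic.norm_eq_zpow_neg_valuation hc]

end

end Pool.Agent.KS6_5.SP
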