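import Pool.Agent.KS6_5.SP.Defs
import Pool.Agent.KS6_5.SP.Gal

/-!
# Fields with only one place above `p`
-/

set_option autoImplicit false

namespace Pool.Agent.KS6_5.SP

open NumberField Pool.Agent.TH121.KT Pool.Agent.W902.TB

noncomputable section

variable {p : ℕ} [Fact p.Prime]

theorem norm_eq_of_ideal {L : Type} [Field L] [NumberField L] (e e' : L →+* PadicAlgCl p)
    (he : idl e = idl e') (x : L) : ‖e x‖ = ‖e' x‖ := by
  have := idl_prime e
  set h := Fintype.card (ClassGroup (𝓞 L)) with hh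
  have hpos : 0 < h := Fintype.card_pos
  have hPm : idl e ∈ nonZeroDivisors (Ideal (𝓞 L)) := mem_nonZeroDivisors_of_ne_zero (idl_ne e)
  have hprin : (idl e ^ h).IsPrincipal := by
    rw [← ClassGroup.mk0_eq_one_iff (pow_mem hPm h)]
    have : (⟨idl e ^ h, pow_mem hPm h⟩ : nonZeroDivisors (Ideal (𝓞 L))) = ⟨idl e, hPm⟩ ^ h := rfl
    rw [this, map_pow, hh, pow_card_eq_one]
  obtain ⟨β, hβ⟩ := hprin.principal
  exact norm_eq_of_idl e e' he h hpos β hβ x

/-- If only one prime ideal of the ring of integers of `F` contains `p`, then all numbers are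
supported at one place of `F`. -/
theorem atOnePlace_of_unique (F : IntermediateField ℚ Qb) [FiniteDimensional ℚ F]
    (h : ∃! P : Ideal (𝓞 F), P.IsPrime ∧ (p : 𝓞 F) ∈ P) {E : Type} [Field E] (α : E) :
    AtOnePlace p F α := by
  have hnf : NumberField F := ⟨⟩
  intro σ l l' _ _ x hx
  obtain ⟨P, -, hP⟩ := h
  let e : F →+* PadicAlgCl p := l.comp (algebraMap F Qb)
  let e' : F →+* PadicAlgCl p := l'.comp (algebraMap F Qb)
  have h1 : idl e = P := hP _ ⟨idl_prime e, p_mem e⟩
  have h2 : idl e' = P := hP _ ⟨idl_prime e', p_mem e'⟩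
  exact norm_eq_of_ideal e e' (h1.trans h2.symm) ⟨x, hx⟩

end

end Pool.Agent.KS6_5.SP
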