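import Pool.Agent.KS6_5.SP.Angle

/-!
# The splitting of the classes
-/

set_option autoImplicit false
set_option linter.unusedSectionVars false
set_option linter.unusedVariables false

namespace Pool.Agent.KS6_5.SP

open NumberField Module TensorProduct IntermediateField
open Pool.Agent.H204R3.CM Pool.Agent.H204R3.SP Pool.Agent.H204R3.GP Pool.Agent.Y137.MV
  Pool.Agent.Y137.SL Pool.Agent.TH121.KT

noncomputable section

variable {p : ℕ} [Fact p.Prime] {a : ℕ}

/-- The classes split if the Weil numbers are neat and all eigenvalues force balance. -/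
theorem split_of_forces {ι : Type} [Fintype ι] {E : ι → Type} [∀ i, Field (E i)]
    [∀ i, NumberField (E i)] [∀ i, IsCMField (E i)] {π : ∀ i, E i} (hgen : ∀ i, ℚ⟮π i⟯ = ⊤)
    (hw : ∀ i, π i * IsCMField.complexConj (E i) (π i) = (p : E i) ^ a)
    (hneat : ∀ L : IntermediateField ℚ Qb, Neat p a π L)
    {k : Type} [Field k] [CharZero k] {V : Type} [AddCommGroup V] [Module k V]
    [FiniteDimensional k V] {M : Type} [AddCommGroup M] [Module k M] [FiniteDimensional k M]
    {Γ : Type} [Group Γ] (ρ : Representation k Γ V) (τ : Representation k Γ M) (χ : Γ →* k)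
    (γ : Γ) (hp : IsPolarised ρ χ γ p a π) (f : Polynomial ℚ) (hf0 : f ≠ 0)
    (hfγ : Polynomial.aeval (τ γ) (f.map (algebraMap ℚ k)) = 0)
    (hf : ∀ (L : IntermediateField ℚ Qb) [NumberField L] (β : L), Polynomial.aeval β f = 0 →
      ∀ i, Forces π β i) : ClassesSplit ρ χ τ := by
  classical
  obtain ⟨hss, ⟨ω, halt, hnd, hωρ⟩, hχ, hγ⟩ := hp
  obtain ⟨L, hLa, hLb, j, h, hroots⟩ := exists_galois_roots E f hf0
  have hun : ∀ β : L, Polynomial.aeval β f = 0 → ∀ i, Forces π β i := hf L
  have hss' : ∀ Δ : Subgroup Γ, Δ.FiniteIndex → SemiUnder (ρ '' (Δ : Set Γ)) := by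
    intro Δ hΔ U hU
    obtain ⟨U', h1, h2⟩ := hss Δ hΔ U (fun s hs u hu => hU _ ⟨s, hs, rfl⟩ u hu)
    refine ⟨U', ?_, h1⟩
    rintro _ ⟨s, hs, rfl⟩ u hu
    exact h2 s hs u hu
  constructor
  · intro n m g hg
    have h1 := final_step ρ χ τ g hg (fun l => alt_of_comp ρ χ _ (fun c => by
      have h2 := comp_mem (L := L) ρ χ τ hgen hw j h (hneat L) ω halt hnd hωρ hss' γ hχ hγ hun
        hroots hfγ (component_eqv hg c) l
      exact h2))
    refine Submodule.span_mono ?_ h1
    rintro x ⟨y, ⟨B, hB, hy⟩, w, hw, hx⟩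
    refine ⟨B, w, hB, hw, fun v => ?_⟩
    rw [hx, hy]
  · intro n m g hg
    ext v
    have h1 : v = fun l => ∑ i, Pi.single i (v l i) := by
      funext l
      exact (Finset.univ_sum_single (v l)).symm
    have h2 : g v = ∑ c : Fin (2 * m + 1) → Fin n,
        g.toMultilinearMap.compLinearMap
          (fun l => LinearMap.single k (fun _ : Fin n => V) (c l)) (fun l => v l (c l)) := by
      conv_lhs => rw [h1]
      exact g.toMultilinearMap.map_sum (fun l i => Pi.single i (v l i))
    rw [h2]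
    refine Finset.sum_eq_zero fun c _ => ?_
    have h3 := odd_zero (L := L) ρ χ τ hgen hw j h (hneat L) ω halt hnd hωρ γ hχ hγ hun hroots
        hfγ (κ := Fin (2 * m + 1)) (by
          rw [Fintype.card_fin]
          exact ⟨m, rfl⟩) (component_eqv hg c)
    rw [h3]
    rfl

/-- **The Tate classes for Weil numbers supported at one place of `F`.** -/
theorem split_of_onePlace {ι : Type} [Fintype ι] {E : ι → Type} [∀ i, Field (E i)]
    [∀ i, NumberField (E i)] [∀ i, IsCMField (E i)] {π : ∀ i, E i} {F : IntermediateField ℚ Qb}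
    [FiniteDimensional ℚ F] (H : OnePlaceWeilOne p a F π)
    {k : Type} [Field k] [CharZero k] {V : Type} [AddCommGroup V] [Module k V]
    [FiniteDimensional k V] {M : Type} [AddCommGroup M] [Module k M] [FiniteDimensional k M]
    {Γ : Type} [Group Γ] (ρ : Representation k Γ V) (τ : Representation k Γ M) (χ : Γ →* k)
    (γ : Γ) (hp : IsPolarised ρ χ γ p a π) (f : Polynomial ℚ) (hf0 : f ≠ 0)
    (hfγ : Polynomial.aeval (τ γ) (f.map (algebraMap ℚ k)) = 0)
    (hf : ∀ β : Qb, Polynomial.aeval β f = 0 → ∀ i,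
      NotOver F (E i) β ∨ SmallerSlopes p (angle p a (π i)) 2 1 β) : ClassesSplit ρ χ τ := by
  refine split_of_forces (fun i => ?_) (fun i => (H.weil i).weight)
    (fun L => neat_of_onePlace H L) ρ τ χ γ hp f hf0 hfγ ?_
  · have h1 := (H.weil i).powers 1 one_pos
    rwa [pow_one] at h1
  · intro L _ β hβ i
    refine forces_of_onePlace H L β i (hf β ?_ i)
    have h1 := Polynomial.aeval_algHom_apply L.val β f
    rw [hβ, map_zero] at h1
    exact h1

end

end Pool.Agent.KS6_5.SP
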