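import Pool.Agent.KS6_5.SP.Rel

/-!
# Balance of relations
-/

set_option autoImplicit false
set_option linter.unusedSectionVars false

namespace Pool.Agent.KS6_5.SP

open NumberField Polynomial IntermediateField Pool.Agent.TH121.KT

noncomputable section

variable {p : ℕ} [Fact p.Prime] {I : Type} [Fintype I] {E : I → Type} [∀ i, Field (E i)]
  [∀ i, NumberField (E i)] [∀ i, IsCMField (E i)] {α : ∀ i, E i}

/-- the conditions on a family of numbers -/
structure OnePlaceFamily (p : ℕ) [Fact p.Prime] (F : IntermediateField ℚ Qb)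
    (α : ∀ i, E i) : Prop where
  weil : ∀ i, IsWeilZero p (α i)
  real : ∀ i, ContainsReal F (E i)
  place : ∀ i, AtOnePlace p F (α i)
  diff : Incommensurable α

/-- the action on pairs -/
def acS (g : GQ) (x : Σ i, (E i →+* Qb)) : Σ i, (E i →+* Qb) := ⟨x.1, act g x.2⟩

/-- the conjugate pair -/
def cjS (x : Σ i, (E i →+* Qb)) : Σ i, (E i →+* Qb) := ⟨x.1, cj x.2⟩

/-- the slope of a pair -/
def slS (ι : Qb →+* PadicAlgCl p) (α : ∀ i, E i) (x : Σ i, (E i →+* Qb)) : ℝ :=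
  Real.log ‖ι (x.2 (α x.1))‖

theorem log_ne_zero_iff' {t : ℝ} (ht : 0 < t) : Real.log t ≠ 0 ↔ t ≠ 1 := by
  constructor
  · rintro h rfl
    exact h Real.log_one
  · intro h h0
    exact h (Real.eq_one_of_pos_of_log_eq_zero ht h0)

/-- The relations between numbers supported at one place of `F` are trivial: first form. -/
theorem balanced_one {F : IntermediateField ℚ Qb} [FiniteDimensional ℚ F]
    (H : OnePlaceFamily p F α) (ι : Qb →+* PadicAlgCl p)
    (N : (Σ i, (E i →+* Qb)) → ℕ) (w : I → ℕ) (hw : ∀ i, 0 < w i) (W : ℕ) (γ : Qb) (hγ0 : γ ≠ 0)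
    (x₀ : ℚ)
    (hrel : (∏ x : Σ i, (E i →+* Qb), (x.2 (α x.1)) ^ (w x.1 * N x)) * γ ^ W = (x₀ : Qb))
    (x : Σ i, (E i →+* Qb))
    (hγ : (∀ σ : E x.1 →+* Qb, ∃ y : E x.1, σ y ∉ F ⊔ ℚ⟮γ⟯) ∨
      SmallerSlopes p (α x.1) W (w x.1) γ) : N x = N (cjS x) := by
  classical
  have hpos : ∀ (x : Σ i, (E i →+* Qb)) (g : GQ), 0 < ‖ι (g (x.2 (α x.1)))‖ := fun x g =>
    norm_pos' (ι := ι) (H.weil x.1).unitary (act g x.2)
  have hsl : ∀ (g : GQ) (x : Σ i, (E i →+* Qb)), slS ι α (acS g x) =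
      Real.log ‖ι (g (x.2 (α x.1)))‖ := fun g x => rfl
  let f : GQ → ℝ := fun g => Real.log ‖ι (x₀ : Qb)‖ - W * Real.log ‖ι (g γ)‖
  have hlog : ∀ g : GQ, ∑ z : Σ i, (E i →+* Qb), ((w z.1 : ℝ) * N z) * slS ι α (acS g z) =
      f g := by
    intro g
    have h1 := congrArg (fun z => Real.log ‖ι (g z)‖) hrel
    simp only [map_mul, map_pow, map_prod, norm_mul, norm_pow, norm_prod, map_ratCast] at h1
    have hγg : ‖ι (g γ)‖ ≠ 0 := by
      rw [norm_ne_zero_iff, ne_eq, map_eq_zero, map_eq_zero]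
      exact hγ0
    rw [Real.log_mul, Real.log_prod, Real.log_pow] at h1
    · simp only [f, map_ratCast]
      rw [← h1, add_sub_cancel_right]
      refine Finset.sum_congr rfl fun z _ => ?_
      rw [Real.log_pow, hsl]
      push_cast
      ring
    · intro z _
      exact pow_ne_zero _ (hpos z g).ne'
    · exact Finset.prod_ne_zero_iff.2 fun z _ => pow_ne_zero _ (hpos z g).ne'
    · exact pow_ne_zero _ hγg
  have hne : ∀ x : Σ i, (E i →+* Qb), cjS x ≠ x := by
    rintro ⟨i, σ⟩ h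
    have h1 : cj σ = σ := eq_of_heq (Sigma.mk.inj_iff.1 h).2
    have h2 : ∀ x : E i, IsCMField.complexConj (E i) x = x := by
      intro x
      exact σ.injective (RingHom.congr_fun h1 x)
    exact IsCMField.complexConj_ne_one (E i) (AlgEquiv.ext h2)
  have hcore := core (G := GQ) (X := Σ i, (E i →+* Qb)) acS
    (fun g h x => rfl) cjS {h | ∀ x ∈ F, h x = x}
    (fun g x => rfl)
    (fun h hh x => by
      have h1 := eq_or_cj x.2 (act h x.2) (fun y hy => hh _ (H.real x.1 x.2 y hy))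
      rcases h1 with h1 | h1
      · left
        exact Sigma.ext rfl (heq_of_eq h1)
      · right
        exact Sigma.ext rfl (heq_of_eq h1))
    (slS ι α)
    (fun x => by
      change Real.log ‖ι (cj x.2 (α x.1))‖ = - Real.log ‖ι (x.2 (α x.1))‖
      rw [cj_val (H.weil x.1).unitary, map_inv₀, norm_inv, Real.log_inv])
    (fun x g g' h h' => by
      rw [hsl, log_ne_zero_iff' (hpos x _)] at h h'
      obtain ⟨k, hk, hk'⟩ := places_conj ι F g g' (H.place x.1 x.2
        (ι.comp (g : Qb →+* Qb)) (ι.comp (g' : Qb →+* Qb)) h h')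
      refine ⟨k, hk, fun y => ?_⟩
      rw [hsl, hsl, hk']
      rfl)
    (by
      rintro ⟨i, σ⟩ ⟨j, τ⟩ c hc0 hc
      by_cases hij : i = j
      · subst hij
        rcases prop_same (H.weil i) ι σ τ c hc with h | h
        · left
          rw [h]
        · right
          rw [h]
          rfl
      · exact (prop_diff (H.weil i) (H.weil j) ι (H.diff i j hij) σ τ c hc0 hc).elim)
    (fun x => by
      obtain ⟨i, σ⟩ := x
      change (⟨i, cj (cj σ)⟩ : Σ i, (E i →+* Qb)) = ⟨i, σ⟩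
      rw [cj_cj])
    hne
    (fun x => by
      obtain ⟨g, hg⟩ := (H.weil x.1).exists_slope ι x.2
      exact ⟨g, (log_ne_zero_iff' (hpos x g)).2 hg⟩)
    (fun x => by
      obtain ⟨k, hk⟩ := exists_act_eq x.2 (cj x.2)
      refine ⟨k, Sigma.ext rfl (heq_of_eq hk)⟩)
    (fun z => (w z.1 : ℝ) * N z) f hlog x ?_
  · have h1 : (w x.1 : ℝ) * N x = w x.1 * N (cjS x) := hcore
    have h2 : (w x.1 : ℝ) ≠ 0 := Nat.cast_ne_zero.2 (hw x.1).ne'
    exact_mod_cast mul_left_cancel₀ h2 h1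
  · rcases hγ with h | ⟨c, hc⟩
    · left
      obtain ⟨y, hy⟩ := h x.2
      obtain ⟨k, hk, hky⟩ : ∃ k : GQ, (∀ z ∈ F ⊔ ℚ⟮γ⟯, k z = z) ∧ k (x.2 y) ≠ x.2 y := by
        by_contra hcon
        push Not at hcon
        exact hy (mem_of_fixed (F ⊔ ℚ⟮γ⟯) hcon)
      have hkF : ∀ z ∈ F, k z = z := fun z hz => hk z ((le_sup_left : F ≤ F ⊔ ℚ⟮γ⟯) hz)
      have hkγ : k γ = γ := hk γ ((le_sup_right : ℚ⟮γ⟯ ≤ F ⊔ ℚ⟮γ⟯)
        (IntermediateField.mem_adjoin_simple_self ℚ γ))
      refine ⟨k, hkF, ?_, fun g => ?_⟩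
      · rcases eq_or_cj x.2 (act k x.2) (fun z hz => hkF _ (H.real x.1 x.2 z hz)) with h1 | h1
        · exact absurd (RingHom.congr_fun h1 y) hky
        · exact Sigma.ext rfl (heq_of_eq h1)
      · change Real.log ‖ι (x₀ : Qb)‖ - W * Real.log ‖ι (g (k γ))‖ = _
        rw [hkγ]
    · right
      refine ⟨w x.1, Real.log ‖ι (x₀ : Qb)‖ - W * c, fun g g' hg' => ?_,
        (N x : ℤ) - N (cjS x), ?_⟩
      · rw [hsl, log_ne_zero_iff' (hpos x g')] at hg'
        have h1 := hc x.2 (ι.comp (g : Qb →+* Qb)) (ι.comp (g' : Qb →+* Qb)) hg'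
        have h2 : f g - (Real.log ‖ι (x₀ : Qb)‖ - W * c) =
            - (W * (Real.log ‖ι (g γ)‖ - c)) := by
          simp only [f]
          ring
        rw [h2, abs_neg, abs_mul, abs_of_nonneg (Nat.cast_nonneg W : (0 : ℝ) ≤ W), hsl]
        exact h1
      · change (w x.1 : ℝ) * N x - w x.1 * N (cjS x) = _
        push_cast
        ring

/-- **The relations between numbers supported at one place of `F` are trivial.** -/
theorem balanced_qb {F : IntermediateField ℚ Qb} [FiniteDimensional ℚ F]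
    (H : OnePlaceFamily p F α) (ι : Qb →+* PadicAlgCl p)
    (N : (Σ i, (E i →+* Qb)) → ℕ) (w : I → ℕ) (hw : ∀ i, 0 < w i) (W : ℕ) (γ : Qb) (hγ0 : γ ≠ 0)
    (x₀ : ℚ)
    (hrel : (∏ x : Σ i, (E i →+* Qb), (x.2 (α x.1)) ^ (w x.1 * N x)) * γ ^ W = (x₀ : Qb))
    (x : Σ i, (E i →+* Qb))
    (hγ : NotOver F (E x.1) γ ∨ SmallerSlopes p (α x.1) W (w x.1) γ) : N x = N (cjS x) := by
  rcases hγ with ⟨m, hm, h⟩ | h
  · have h1 := balanced_one H ι (fun z => m * N z) w hw W (γ ^ m) (pow_ne_zero m hγ0) (x₀ ^ m)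
      (by
        have h2 := congrArg (fun z => z ^ m) hrel
        simp only [mul_pow, ← Finset.prod_pow, ← pow_mul] at h2
        rw [← pow_mul, mul_comm m W]
        push_cast
        rw [← h2]
        congr 1
        refine Finset.prod_congr rfl fun z _ => ?_
        congr 1
        ring) x (Or.inl h)
    exact Nat.eq_of_mul_eq_mul_left hm h1
  · exact balanced_one H ι N w hw W γ hγ0 x₀ hrel x (Or.inr h)

end

end Pool.Agent.KS6_5.SP
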