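import Mathlib

/-!
# Linear relations between the translates of a function supported at one place
-/

set_option autoImplicit false
set_option linter.unusedSectionVars false

namespace Pool.Agent.KS6_5.SP

section core

variable {G X : Type*} [Group G] [Fintype X] (ac : G → X → X)
  (hmul : ∀ g h x, ac (g * h) x = ac g (ac h x))
  (bar : X → X) (N : Set G)
  (hgb : ∀ g x, ac g (bar x) = bar (ac g x))
  (hN : ∀ h ∈ N, ∀ x, ac h x = x ∨ ac h x = bar x)
  (v : X → ℝ) (hv : ∀ x, v (bar x) = - v x)

include hmul hgb hv hN in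
theorem v_mul {h : G} (hh : h ∈ N) (g : G) (x : X) :
    (ac h x = x → v (ac (g * h) x) = v (ac g x)) ∧
      (ac h x ≠ x → v (ac (g * h) x) = - v (ac g x)) := by
  constructor
  · intro h1
    rw [hmul, h1]
  · intro h1
    rw [hmul, (hN h hh x).resolve_left h1, hgb, hv]

include hmul hgb hv hN in
open Classical in
/-- One projection. -/
theorem step {h : G} (hh : h ∈ N) (x : X) (m : X → ℝ) (f : G → ℝ)
    (hrel : ∀ g, ∑ z, m z * v (ac g z) = f g) (g : G) :
    ∑ z, (if (ac h x = x ↔ ac h z = z) then m z else 0) * v (ac g z) =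
      if ac h x = x then (f g + f (g * h)) / 2 else (f g - f (g * h)) / 2 := by
  have h1 := hrel g
  have h2 := hrel (g * h)
  have h3 : ∀ z, m z * v (ac (g * h) z) = (if ac h z = z then 1 else -1) * (m z * v (ac g z)) := by
    intro z
    by_cases hz : ac h z = z
    · rw [(v_mul ac hmul bar N hgb hN v hv hh g z).1 hz, if_pos hz, one_mul]
    · rw [(v_mul ac hmul bar N hgb hN v hv hh g z).2 hz, if_neg hz]
      ring
  rw [Finset.sum_congr rfl fun z _ => h3 z] at h2
  by_cases hx : ac h x = x
  · rw [if_pos hx, ← h1, ← h2, ← Finset.sum_add_distrib, Finset.sum_div]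
    refine Finset.sum_congr rfl fun z _ => ?_
    by_cases hz : ac h z = z
    · rw [if_pos (by tauto), if_pos hz]
      ring
    · rw [if_neg (by tauto), if_neg hz]
      ring
  · rw [if_neg hx, ← h1, ← h2, ← Finset.sum_sub_distrib, Finset.sum_div]
    refine Finset.sum_congr rfl fun z _ => ?_
    by_cases hz : ac h z = z
    · rw [if_neg (by tauto), if_pos hz]
      ring
    · rw [if_pos (by tauto), if_neg hz]
      ring

include hmul hgb hv hN in
/-- The projection to the line of `x`. -/
theorem project (x : X) (m : X → ℝ) (f : G → ℝ) (c B : ℝ) (hB : ∀ g, |f g - c| < B)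
    (hrel : ∀ g, ∑ z, m z * v (ac g z) = f g) (Y : Finset X) :
    ∃ (m' : X → ℝ) (f' : G → ℝ), (∀ g, ∑ z, m' z * v (ac g z) = f' g) ∧
      (∃ c' : ℝ, ∀ g, |f' g - c'| < B) ∧
      (∀ z, (∀ h ∈ N, (ac h x = x ↔ ac h z = z)) → m' z = m z) ∧
      (∀ z ∈ Y, ¬ (∀ h ∈ N, (ac h x = x ↔ ac h z = z)) → m' z = 0) ∧
      (∀ z, m z = 0 → m' z = 0) ∧ ((∀ g, f g = 0) → ∀ g, f' g = 0) := by
  classical
  induction Y using Finset.induction_on with
  | empty => exact ⟨m, f, hrel, ⟨c, hB⟩, fun z _ => rfl, by simp, fun z h => h, fun h => h⟩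
  | insert y Y hy ih =>
    obtain ⟨m', f', h1, h2, h3, h4, h5, h6⟩ := ih
    by_cases hl : ∀ h ∈ N, (ac h x = x ↔ ac h y = y)
    · refine ⟨m', f', h1, h2, h3, ?_, h5, h6⟩
      intro z hz hzl
      rcases Finset.mem_insert.1 hz with rfl | hz
      · exact absurd hl hzl
      · exact h4 z hz hzl
    · have hl' := hl
      push Not at hl
      obtain ⟨h, hh, hne⟩ := hl
      refine ⟨fun z => if (ac h x = x ↔ ac h z = z) then m' z else 0,
        fun g => if ac h x = x then (f' g + f' (g * h)) / 2 else (f' g - f' (g * h)) / 2,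
        fun g => step ac hmul bar N hgb hN v hv hh x m' f' h1 g, ?_, ?_, ?_, ?_, ?_⟩
      · obtain ⟨c', h2⟩ := h2
        refine ⟨if ac h x = x then c' else 0, fun g => ?_⟩
        have e1 := abs_lt.1 (h2 g)
        have e2 := abs_lt.1 (h2 (g * h))
        dsimp only
        split_ifs
        · rw [abs_lt]
          constructor <;> linarith [e1.1, e1.2, e2.1, e2.2]
        · rw [abs_lt]
          constructor <;> linarith [e1.1, e1.2, e2.1, e2.2]
      · intro z hz
        dsimp only
        rw [if_pos (hz h hh)]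
        exact h3 z hz
      · intro z hz hzl
        dsimp only
        split_ifs with hcond
        · rcases Finset.mem_insert.1 hz with rfl | hz
          · exfalso
            tauto
          · exact h4 z hz hzl
        · rfl
      · intro z hz
        dsimp only
        split_ifs
        · exact h5 z hz
        · rfl
      · intro h0 g
        dsimp only
        rw [h6 h0, h6 h0]
        simp

variable (hSP : ∀ x (g g' : G), v (ac g x) ≠ 0 → v (ac g' x) ≠ 0 →
    ∃ h ∈ N, ∀ y, v (ac g' y) = v (ac (g * h) y))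
  (hprop : ∀ x y (c : ℝ), c ≠ 0 → (∀ g, v (ac g y) = c * v (ac g x)) → y = x ∨ y = bar x)

include hmul hgb hv hN hSP hprop in
/-- On a line, two elements with a common place are equal or conjugate. -/
theorem eq_of_line {x y : X} (hl : ∀ h ∈ N, (ac h x = x ↔ ac h y = y)) {g : G}
    (hx : v (ac g x) ≠ 0) (hy : v (ac g y) ≠ 0) : y = x ∨ y = bar x := by
  refine hprop x y (v (ac g y) / v (ac g x)) (div_ne_zero hy hx) ?_
  intro g'
  by_cases h1 : v (ac g' x) = 0
  · by_cases h2 : v (ac g' y) = 0
    · rw [h1, h2, mul_zero]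
    · exfalso
      obtain ⟨h, hh, he⟩ := hSP y g g' hy h2
      have h3 := he x
      rw [h1] at h3
      by_cases h4 : ac h x = x
      · rw [(v_mul ac hmul bar N hgb hN v hv hh g x).1 h4] at h3
        exact hx h3.symm
      · rw [(v_mul ac hmul bar N hgb hN v hv hh g x).2 h4] at h3
        exact hx (neg_eq_zero.1 h3.symm)
  · obtain ⟨h, hh, he⟩ := hSP x g g' hx h1
    rw [he x, he y]
    by_cases h4 : ac h x = x
    · rw [(v_mul ac hmul bar N hgb hN v hv hh g x).1 h4,
        (v_mul ac hmul bar N hgb hN v hv hh g y).1 ((hl h hh).1 h4)]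
      field_simp
    · rw [(v_mul ac hmul bar N hgb hN v hv hh g x).2 h4,
        (v_mul ac hmul bar N hgb hN v hv hh g y).2 (fun h5 => h4 ((hl h hh).2 h5))]
      field_simp

variable (hbb : ∀ x, bar (bar x) = x) (hbne : ∀ x, bar x ≠ x)
  (hnz : ∀ x, ∃ g, v (ac g x) ≠ 0) (hcj : ∀ x, ∃ k, ac k x = bar x)

include hmul hgb hv hN hSP hprop hbb hbne hnz hcj in
/-- **Core.** A relation with an inhomogeneous term which is invariant under an element of `N` that
conjugates `x`, or which is small, is trivial at `x`. -/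
theorem core (n : X → ℝ) (f : G → ℝ) (hrel : ∀ g, ∑ z, n z * v (ac g z) = f g) (x : X)
    (hx : (∃ h ∈ N, ac h x = bar x ∧ ∀ g, f (g * h) = f g) ∨
      ∃ (b c : ℝ), (∀ g g', v (ac g' x) ≠ 0 → |f g - c| < b * |v (ac g' x)|) ∧
        ∃ k : ℤ, n x - n (bar x) = b * k) : n x = n (bar x) := by
  classical
  -- the line of `bar x`
  have hbarl : ∀ h ∈ N, (ac h x = x ↔ ac h (bar x) = bar x) := by
    intro h hh
    rw [hgb]
    constructor
    · intro h1
      rw [h1]
    · intro h1
      have := congrArg bar h1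
      rwa [hbb, hbb] at this
  -- final step
  have hfin : ∀ (m' : X → ℝ) (f' : G → ℝ), (∀ g, ∑ z, m' z * v (ac g z) = f' g) →
      (∀ z, (∀ h ∈ N, (ac h x = x ↔ ac h z = z)) → m' z = n z) →
      (∀ z, ¬ (∀ h ∈ N, (ac h x = x ↔ ac h z = z)) → m' z = 0) →
      ∀ g, v (ac g x) ≠ 0 → (n x - n (bar x)) * v (ac g x) = f' g := by
    intro m' f' h1 h2 h3 g hg
    rw [← h1 g]
    have h4 : ∀ z, z ≠ x → z ≠ bar x → m' z * v (ac g z) = 0 := by
      intro z hzx hzb
      by_cases hl : ∀ h ∈ N, (ac h x = x ↔ ac h z = z)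
      · by_cases hvz : v (ac g z) = 0
        · rw [hvz, mul_zero]
        · rcases eq_of_line ac hmul bar N hgb hN v hv hSP hprop hl hg hvz with h | h
          · exact absurd h hzx
          · exact absurd h hzb
      · rw [h3 z hl, zero_mul]
    have h5 : ∑ z, m' z * v (ac g z) = ∑ z ∈ ({x, bar x} : Finset X), m' z * v (ac g z) := by
      symm
      refine Finset.sum_subset (Finset.subset_univ _) ?_
      intro z _ hz
      rw [Finset.mem_insert, Finset.mem_singleton, not_or] at hz
      exact h4 z hz.1 hz.2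
    rw [h5, Finset.sum_pair (hbne x).symm, h2 x (fun h _ => Iff.rfl), h2 (bar x) hbarl, hgb, hv]
    ring
  obtain ⟨g, hg⟩ := hnz x
  rcases hx with ⟨h, hh, hhx, hf⟩ | ⟨b, c, hbd, k, hk⟩
  · -- invariance
    have hne : ac h x ≠ x := by
      rw [hhx]
      exact hbne x
    have h1 := fun g => step ac hmul bar N hgb hN v hv hh x n f hrel g
    have h2 : ∀ g, ∑ z, (if (ac h x = x ↔ ac h z = z) then n z else 0) * v (ac g z) =
        (fun _ : G => (0 : ℝ)) g := by
      intro g
      rw [h1 g, if_neg hne, hf]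
      simp
    obtain ⟨m', f', e1, -, e3, e4, e5, e6⟩ := project ac hmul bar N hgb hN v hv x _ _ 0 1
      (by simp) h2 Finset.univ
    have h3 := hfin m' f' e1 (fun z hz => by rw [e3 z hz, if_pos (hz h hh)])
      (fun z hz => e4 z (Finset.mem_univ z) hz) g hg
    rw [e6 (fun _ => rfl)] at h3
    have h4 := (mul_eq_zero.1 h3).resolve_right hg
    linarith
  · -- smallness
    obtain ⟨j, hj⟩ := hcj x
    obtain ⟨m', f', e1, ⟨c', e2⟩, e3, e4, -, -⟩ := project ac hmul bar N hgb hN v hv x n f c
      (b * |v (ac g x)|) (fun g' => hbd g' g hg) hrel Finset.univ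
    have h3 := hfin m' f' e1 e3 (fun z hz => e4 z (Finset.mem_univ z) hz)
    have h4 : v (ac (g * j) x) = - v (ac g x) := by
      rw [hmul, hj, hgb, hv]
    have h5 : v (ac (g * j) x) ≠ 0 := by
      rw [h4]
      exact neg_ne_zero.2 hg
    have h6 := h3 g hg
    have h7 := h3 (g * j) h5
    have e5 := abs_lt.1 (e2 g)
    have e6 := abs_lt.1 (e2 (g * j))
    rw [← h6] at e5
    rw [← h7, h4] at e6
    have h8 : |(n x - n (bar x)) * v (ac g x)| < b * |v (ac g x)| := by
      rw [abs_lt]
      constructor <;> nlinarith [e5.1, e5.2, e6.1, e6.2]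
    rw [abs_mul] at h8
    have h9 : 0 < |v (ac g x)| := abs_pos.2 hg
    have h10 : |n x - n (bar x)| < b := lt_of_mul_lt_mul_right h8 h9.le
    have hb : 0 < b := lt_of_le_of_lt (abs_nonneg _) h10
    rw [hk, abs_mul, abs_of_pos hb] at h10
    have h11 : |(k : ℝ)| < 1 := by
      by_contra h
      push Not at h
      nlinarith
    have h12 : k = 0 := by
      have : |k| < 1 := by exact_mod_cast h11
      exact Int.abs_lt_one_iff.1 this
    rw [h12] at hk
    simp only [Int.cast_zero, mul_zero] at hk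
    linarith

end core

end Pool.Agent.KS6_5.SP
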