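import Mathlib

/-!
# Numbers supported at one place: definitions
-/

set_option autoImplicit false

namespace Pool.Agent.KS6_5.SP

open NumberField IntermediateField

/-- The number `α` in the CM field `E` is a Weil number of weight zero, all of whose powers
generate `E`: all its complex absolute values are one, and `p ^ a α` is an algebraic integer for
some `a`. -/
structure IsWeilZero (p : ℕ) {E : Type} [Field E] [NumberField E] (α : E) : Prop where
  unitary : ∀ φ : E →+* ℂ, ‖φ α‖ = 1
  integral : ∃ a : ℕ, IsIntegral ℤ ((p : E) ^ a * α)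
  powers : ∀ s : ℕ, 0 < s → IntermediateField.adjoin ℚ {α ^ s} = ⊤

/-- The number `π` in the CM field `E` is a Weil number for `p ^ a` of weight one, all of whose
powers generate `E`. -/
structure IsWeilOne (p a : ℕ) {E : Type} [Field E] [NumberField E] [IsCMField E] (π : E) :
    Prop where
  integral : IsIntegral ℤ π
  weight : π * IsCMField.complexConj E π = (p : E) ^ a
  powers : ∀ s : ℕ, 0 < s → IntermediateField.adjoin ℚ {π ^ s} = ⊤

/-- The number `π ^ 2 / p ^ a` of weight zero. -/
def angle (p a : ℕ) {E : Type} [Field E] (π : E) : E := π ^ 2 / (p : E) ^ a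

/-- The field `F` contains all conjugates of the maximal totally real subfield of the CM field
`E`. -/
def ContainsReal (F : IntermediateField ℚ (AlgebraicClosure ℚ)) (E : Type) [Field E]
    [NumberField E] [IsCMField E] : Prop :=
  ∀ (σ : E →+* AlgebraicClosure ℚ) (x : E), IsCMField.complexConj E x = x → σ x ∈ F

/-- Each conjugate `σ α` of `α` is a unit at all places of the algebraic closure of `ℚ` above `p`
except for those above **one** place of `F`: two `p`-adic places `l`, `l'` at which `σ α` is not a
unit define the same absolute value on `F`. (If `F` has only one place above `p` this is true for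
all `α`.) -/
def AtOnePlace (p : ℕ) [Fact p.Prime] (F : IntermediateField ℚ (AlgebraicClosure ℚ)) {E : Type}
    [Field E] (α : E) : Prop :=
  ∀ (σ : E →+* AlgebraicClosure ℚ) (l l' : AlgebraicClosure ℚ →+* PadicAlgCl p),
    ‖l (σ α)‖ ≠ 1 → ‖l' (σ α)‖ ≠ 1 → ∀ x ∈ F, ‖l x‖ = ‖l' x‖

/-- No power of a conjugate of `α i` is equal to a power of a conjugate of `α j`, for `i ≠ j`. -/
def Incommensurable {I : Type} {E : I → Type} [∀ i, Field (E i)] (α : ∀ i, E i) : Prop :=
  ∀ i j, i ≠ j → ∀ (σ : E i →+* AlgebraicClosure ℚ) (τ : E j →+* AlgebraicClosure ℚ) (m n : ℕ),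
    0 < m → 0 < n → σ (α i) ^ m ≠ τ (α j) ^ n

/-- For some `m > 0` the field generated by `F` and `γ ^ m` contains no conjugate of the field
`E`. -/
def NotOver (F : IntermediateField ℚ (AlgebraicClosure ℚ)) (E : Type) [Field E]
    (γ : AlgebraicClosure ℚ) : Prop :=
  ∃ m : ℕ, 0 < m ∧ ∀ σ : E →+* AlgebraicClosure ℚ, ∃ x : E, σ x ∉ F ⊔ ℚ⟮γ ^ m⟯

/-- The absolute values of `γ` at the `p`-adic places differ, up to a common factor, by less than
those of the conjugates of `α` which are different from one, with the weights `B` and `C`: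
`B * |log ‖l γ‖ - c| < C * |log ‖l' (σ α)‖|` if `‖l' (σ α)‖ ≠ 1`. -/
def SmallerSlopes (p : ℕ) [Fact p.Prime] {E : Type} [Field E] (α : E) (B C : ℝ)
    (γ : AlgebraicClosure ℚ) : Prop :=
  ∃ c : ℝ, ∀ (σ : E →+* AlgebraicClosure ℚ) (l l' : AlgebraicClosure ℚ →+* PadicAlgCl p),
    ‖l' (σ α)‖ ≠ 1 → B * |Real.log ‖l γ‖ - c| < C * |Real.log ‖l' (σ α)‖|

end Pool.Agent.KS6_5.SP
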