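import Pool.Agent.KS6_5.SP.Defs

/-!
# Numbers supported at one place: the eigenvalues of the additional factor
-/

set_option autoImplicit false

namespace Pool.Agent.KS6_5.SP

open NumberField IntermediateField

/-- Some power `β ^ N` of the number `β` is a root of a rational polynomial all of whose roots `γ`
satisfy the following condition for all `i`: the field generated by `F` and some power of `γ` contains
no conjugate of `E i`, or the absolute values of `γ` at the `p`-adic places differ, up to a common
factor, by less than those of `α i`, with the weights `e i` and `N`. -/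
def IsForeignOrSmall (p : ℕ) [Fact p.Prime] (F : IntermediateField ℚ (AlgebraicClosure ℚ))
    {I : Type} {E : I → Type} [∀ i, Field (E i)] (e : I → ℕ) (α : ∀ i, E i) {Ω : Type} [Field Ω]
    [CharZero Ω] (β : Ω) : Prop :=
  ∃ N : ℕ, 0 < N ∧ ∃ Q : Polynomial ℚ, Q ≠ 0 ∧ Polynomial.aeval (β ^ N) Q = 0 ∧
    ∀ γ : AlgebraicClosure ℚ, Polynomial.aeval γ Q = 0 → ∀ i,
      NotOver F (E i) γ ∨ SmallerSlopes p (α i) (e i) N γ

/-- All elements of `F` are images of real elements of `E`, by every embedding `σ` of `E`: together
with `ContainsReal` this says that the maximal totally real subfield of `E` is a Galois extension of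
the rational numbers, with image `F`. -/
def InReal (F : IntermediateField ℚ (AlgebraicClosure ℚ)) (E : Type) [Field E] [NumberField E]
    [IsCMField E] : Prop :=
  ∀ (σ : E →+* AlgebraicClosure ℚ), ∀ x ∈ F, ∃ y : E, IsCMField.complexConj E y = y ∧ σ y = x

/-- The number `α` of the CM field `E` is a unit at all places of `E` above `p` except for those above
one place of the maximal totally real subfield. -/
def AtOneRealPlace (p : ℕ) [Fact p.Prime] {E : Type} [Field E] [NumberField E] [IsCMField E]
    (α : E) : Prop :=
  ∀ l l' : E →+* PadicAlgCl p, ‖l α‖ ≠ 1 → ‖l' α‖ ≠ 1 →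
    ∀ y : E, IsCMField.complexConj E y = y → ‖l y‖ = ‖l' y‖

end Pool.Agent.KS6_5.SP
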