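import Pool.Agent.KS6_5.SP.Bal
import Pool.Agent.KS6_5.SP.Defs2
import Pool.Graph.R_pool_sql_team_seeded_ab47071d.TH121.KT.Main

/-!
# Tate maps for numbers supported at one place of `F`
-/

set_option autoImplicit false
set_option linter.unusedSectionVars false

namespace Pool.Agent.KS6_5.SP

open NumberField Polynomial Module IntermediateField Pool.Agent.TH121.KT

noncomputable section

/-- the relation solved for the additional factor -/
theorem balanced_eq {p : ℕ} [Fact p.Prime] {I : Type} [Fintype I] {E : I → Type}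
    [∀ i, Field (E i)] [∀ i, NumberField (E i)] [∀ i, IsCMField (E i)] {α : ∀ i, E i}
    {F : IntermediateField ℚ Qb} [FiniteDimensional ℚ F]
    (H : OnePlaceFamily p F α) (N : (Σ i, (E i →+* Qb)) → ℕ) (w : I → ℕ) (hw : ∀ i, 0 < w i)
    (W : ℕ) (γ : Qb)
    (hrel : ∏ x : Σ i, (E i →+* Qb), (x.2 (α x.1)) ^ (w x.1 * N x) = γ ^ W)
    (x : Σ i, (E i →+* Qb))
    (hγ : NotOver F (E x.1) γ ∨ SmallerSlopes p (α x.1) W (w x.1) γ) : N x = N (cjS x) := by
  classical
  obtain ⟨ιp⟩ : Nonempty (Qb →ₐ[ℚ] PadicAlgCl p) := ⟨IsAlgClosed.lift⟩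
  have hcc : ∀ z : Σ i, (E i →+* Qb), cjS (cjS z) = z := by
    rintro ⟨i, σ⟩
    change (⟨i, cj (cj σ)⟩ : Σ i, (E i →+* Qb)) = ⟨i, σ⟩
    rw [cj_cj]
  have hal0 : ∀ z : Σ i, (E i →+* Qb), z.2 (α z.1) ≠ 0 := by
    intro z
    exact (_root_.map_ne_zero _).2 (alpha_ne (H.weil z.1).unitary)
  have halc : ∀ z : Σ i, (E i →+* Qb), (cjS z).2 (α (cjS z).1) = (z.2 (α z.1))⁻¹ := by
    intro z
    exact cj_val (H.weil z.1).unitary z.2
  rcases Nat.eq_zero_or_pos W with hW | hW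
  · subst hW
    rw [pow_zero] at hrel
    refine balanced_qb H ιp N w hw 0 1 one_ne_zero 1 (by
      rw [hrel, pow_zero, mul_one, Rat.cast_one]) x (Or.inr ⟨0, fun σ l l' h => ?_⟩)
    have h2 : 0 < ‖l' (σ (α x.1))‖ := norm_pos' (ι := l') (H.weil x.1).unitary σ
    rw [Nat.cast_zero, zero_mul]
    refine mul_pos (Nat.cast_pos.2 (hw _)) (abs_pos.2 fun h0 => h ?_)
    exact Real.eq_one_of_pos_of_log_eq_zero h2 h0
  have hγ0 : γ ≠ 0 := by
    rintro rfl
    rw [zero_pow hW.ne'] at hrel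
    exact Finset.prod_ne_zero_iff.2 (fun z _ => pow_ne_zero _ (hal0 z)) hrel
  have h7 : (∏ z : Σ i, (E i →+* Qb), (z.2 (α z.1)) ^ (w z.1 * N (cjS z))) * γ ^ W =
      ((1 : ℚ) : Qb) := by
    have h8 : ∏ z : Σ i, (E i →+* Qb), (z.2 (α z.1)) ^ (w z.1 * N (cjS z)) =
        (∏ x : Σ i, (E i →+* Qb), (x.2 (α x.1)) ^ (w x.1 * N x))⁻¹ := by
      rw [← Finset.prod_inv_distrib]
      refine Fintype.prod_equiv (Function.Involutive.toPerm cjS hcc) _ _ fun z => ?_
      change (z.2 (α z.1)) ^ (w z.1 * N (cjS z)) =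
        ((cjS z).2 (α (cjS z).1) ^ (w z.1 * N (cjS z)))⁻¹
      rw [halc, inv_pow, inv_inv]
    rw [h8, hrel, inv_mul_cancel₀ (pow_ne_zero _ hγ0), Rat.cast_one]
  have h10 := balanced_qb H ιp (fun z => N (cjS z)) w hw W γ hγ0 1 h7 x hγ
  simp only [hcc] at h10
  exact h10.symm

variable {r : ℕ} {K : Fin r → Type} [∀ i, Field (K i)] [∀ i, NumberField (K i)]
  [∀ i, IsCMField (K i)]
variable {p : ℕ} [Fact p.Prime] {α : ∀ i, K i}

variable {κ Ω M : Type} [Fintype κ] [DecidableEq κ] [Field Ω] [CharZero Ω] [IsAlgClosed Ω]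

/-- **Balanced labels.** The arithmetic part in terms of labels. -/
theorem count_bal {F : IntermediateField ℚ Qb} [FiniteDimensional ℚ F]
    (H : OnePlaceFamily p F α) (c : κ → Fin r)
    (ρ : ∀ k, Option (K (c k) →+* Qb))
    {w : Fin r → ℕ} {W : ℕ} {β : Qb}
    (hrel : ∏ k, ((ρ k).elim 1 (fun σ => σ (α (c k)) ^ w (c k))) = β ^ W)
    (hw : ∀ i, 0 < w i)
    (hβ : ∀ i, NotOver F (K i) β ∨ SmallerSlopes p (α i) W (w i) β)
    (x : Σ i, (K i →+* Qb)) : count c ρ x = count c ρ (bar x) := by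
  classical
  have hcount : ∀ x, count c ρ x = (Finset.univ.filter fun k =>
      (ρ k).map (fun σ => (⟨c k, σ⟩ : Σ i, (K i →+* Qb))) = some x).card := by
    intro x
    unfold count
    congr
  refine balanced_eq H (count c ρ) w hw W β ?_ x (hβ x.1)
  rw [← hrel]
  have h1 : ∀ x : Σ i, (K i →+* Qb), (x.2 (α x.1)) ^ (w x.1 * count c ρ x) =
      ∏ k, (if (ρ k).map (fun σ => (⟨c k, σ⟩ : Σ i, (K i →+* Qb))) = some x then
        x.2 (α x.1) ^ w x.1 else 1) := by
    intro x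
    rw [Finset.prod_ite, Finset.prod_const_one, mul_one, Finset.prod_const, ← pow_mul, hcount]
  rw [Finset.prod_congr rfl fun x _ => h1 x, Finset.prod_comm]
  refine Finset.prod_congr rfl fun k _ => ?_
  rcases h : ρ k with _ | σ
  · simp
  · simp only [Option.map_some, Option.some.injEq, Option.elim_some]
    rw [Finset.prod_ite_eq Finset.univ, if_pos (Finset.mem_univ _)]

theorem SmallerSlopes.scale {E : Type} [Field E] {α : E} {B C : ℝ} {γ : Qb}
    (h : SmallerSlopes p α B C γ) {t : ℕ} (ht : 0 < t) :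
    SmallerSlopes p α (t * B) (t * C) γ := by
  obtain ⟨c, hc⟩ := h
  refine ⟨c, fun σ l l' hl => ?_⟩
  have ht' : (0 : ℝ) < t := Nat.cast_pos.2 ht
  have h1 := mul_lt_mul_of_pos_left (hc σ l l' hl) ht'
  rw [mul_assoc, mul_assoc]
  exact h1

/-- **Letters.** If a product of eigenvalues of the blocks is, up to a root of unity, an
eigenvalue of the additional factor, then the letters can be arranged in singles and pairs with
product a root of unity. -/
theorem letters_onePlace {F : IntermediateField ℚ Qb} [FiniteDimensional ℚ F]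
    (H : OnePlaceFamily p F α) (e : Fin r → ℕ) (he : ∀ i, 0 < e i) (c : κ → Fin r)
    {Q : ℚ[X]} (hQ : Q ≠ 0) (μ : κ → Ω)
    (hμ : ∀ k, (∃ N : ℕ, 0 < N ∧ μ k ^ N = 1) ∨
      ∃ (σ : K (c k) →+* Ω) (N : ℕ), 0 < N ∧ μ k ^ (e (c k) * N) = σ (α (c k)) ^ N)
    {β : Ω} {M₀ s : ℕ} (hM₀ : 0 < M₀) (hβQ : aeval (β ^ M₀) Q = 0)
    (hQs : ∀ γ : Qb, aeval γ Q = 0 → ∀ i, NotOver F (K i) γ ∨ SmallerSlopes p (α i) (e i) M₀ γ)
    (hs : 0 < s)
    (hβs : β ^ s = (∏ k, μ k) ^ s) :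
    ∃ P : Finpartition (Finset.univ : Finset κ), ∀ B ∈ P.parts,
      (B.card ≤ 2 ∧ (∀ k ∈ B, ∀ k' ∈ B, c k = c k')) ∧
      ∃ t : ℕ, 0 < t ∧ (∏ k : B, μ k) ^ t = 1 := by
  classical
  let τ : Qb →+* Ω := (IsAlgClosed.lift : Qb →ₐ[ℚ] Ω).toRingHom
  -- labels
  have hlab : ∀ k, ∃ (ρ : Option (K (c k) →+* Qb)) (N : ℕ), 0 < N ∧
      μ k ^ (e (c k) * N) = τ (ρ.elim 1 (fun σ => σ (α (c k)))) ^ N := by
    intro k
    rcases hμ k with ⟨N, hN, h⟩ | ⟨σ, N, hN, h⟩
    · refine ⟨none, N, hN, ?_⟩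
      rw [Option.elim_none, map_one, one_pow, mul_comm, pow_mul, h, one_pow]
    · obtain ⟨ρ, hρ⟩ := exists_lift τ σ
      refine ⟨some ρ, N, hN, ?_⟩
      rw [Option.elim_some, h, ← hρ]
      rfl
  choose ρ N hN hρ using hlab
  -- the relation
  obtain ⟨γ, hγQ, hγ⟩ := exists_root τ hQ hβQ
  let T : ℕ := (∏ i, e i) * ∏ k, N k
  have hE : 0 < ∏ i, e i := Finset.prod_pos fun i _ => he i
  have hNN : 0 < ∏ k, N k := Finset.prod_pos fun k _ => hN k
  let w : Fin r → ℕ := fun i => s * M₀ * ((∏ j ∈ Finset.univ.erase i, e j) * ∏ k, N k)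
  have hw : ∀ i, 0 < w i := fun i => Nat.mul_pos (Nat.mul_pos hs hM₀)
    (Nat.mul_pos (Finset.prod_pos fun j _ => he j) hNN)
  have hT : ∀ k, μ k ^ (s * M₀ * T) = τ ((ρ k).elim 1 (fun σ => σ (α (c k)) ^ w (c k))) := by
    intro k
    have h1 : s * M₀ * T = e (c k) * N k * (s * M₀ * ((∏ j ∈ Finset.univ.erase (c k), e j) *
        ∏ k' ∈ Finset.univ.erase k, N k')) := by
      change s * M₀ * ((∏ i, e i) * ∏ k, N k) = _
      rw [← Finset.mul_prod_erase Finset.univ e (Finset.mem_univ (c k)),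
        ← Finset.mul_prod_erase Finset.univ N (Finset.mem_univ k)]
      ring
    have h2 : w (c k) = N k * (s * M₀ * ((∏ j ∈ Finset.univ.erase (c k), e j) *
        ∏ k' ∈ Finset.univ.erase k, N k')) := by
      change s * M₀ * ((∏ j ∈ Finset.univ.erase (c k), e j) * ∏ k, N k) = _
      rw [← Finset.mul_prod_erase Finset.univ N (Finset.mem_univ k)]
      ring
    rw [h1, pow_mul, hρ k, ← pow_mul, ← h2]
    rcases ρ k with _ | σ
    · simp
    · simp only [Option.elim_some, map_pow]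
  have hrel : ∏ k, ((ρ k).elim 1 (fun σ => σ (α (c k)) ^ w (c k))) = γ ^ (s * T) := by
    apply τ.injective
    rw [map_prod, ← Finset.prod_congr rfl fun k _ => hT k, Finset.prod_pow, map_pow, hγ,
      ← pow_mul, show s * M₀ * T = s * (M₀ * T) by ring, pow_mul, ← hβs, ← pow_mul]
    congr 1
    ring
  have hbal := count_bal H c ρ hrel hw (fun i => by
    rcases hQs γ hγQ i with h | h
    · exact Or.inl h
    · right
      have h1 : 0 < s * ((∏ j ∈ Finset.univ.erase i, e j) * ∏ k, N k) :=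
        Nat.mul_pos hs (Nat.mul_pos (Finset.prod_pos fun j _ => he j) hNN)
      have h2 := h.scale h1
      have h3 : ((s * T : ℕ) : ℝ) = ((s * ((∏ j ∈ Finset.univ.erase i, e j) * ∏ k, N k) : ℕ) : ℝ) *
          (e i : ℝ) := by
        rw [← Nat.cast_mul]
        congr 1
        change s * ((∏ i, e i) * ∏ k, N k) = _
        rw [← Finset.mul_prod_erase Finset.univ e (Finset.mem_univ i)]
        ring
      have h4 : ((w i : ℕ) : ℝ) = ((s * ((∏ j ∈ Finset.univ.erase i, e j) * ∏ k, N k) : ℕ) : ℝ) *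
          (M₀ : ℝ) := by
        rw [← Nat.cast_mul]
        congr 1
        change s * M₀ * ((∏ j ∈ Finset.univ.erase i, e j) * ∏ k, N k) = _
        ring
      rw [h3, h4]
      exact h2)
  -- the partition
  let φ : κ → Option (Σ i, (K i →+* Qb)) := fun k =>
    (ρ k).map (fun σ => (⟨c k, σ⟩ : Σ i, (K i →+* Qb)))
  have hex : ∀ x, Pool.Agent.W517.K3.excess bar φ (Finset.univ : Finset κ) x = 0 := by
    intro x
    have h1 := hbal x
    unfold Pool.Agent.W517.K3.excess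
    have h2 : ∀ x, (Finset.univ.filter fun k => φ k = some x).card = count c ρ x := by
      intro x
      unfold count
      congr
    rw [h2, h2, h1, sub_self]
  have hbne : ∀ x : Σ i, (K i →+* Qb), bar x ≠ x := by
    rintro ⟨i, σ⟩ h
    have h1 : cj σ = σ := by
      have := Sigma.mk.inj_iff.1 h
      exact eq_of_heq this.2
    have h2 : ∀ x : K i, IsCMField.complexConj (K i) x = x := by
      intro x
      exact σ.injective (RingHom.congr_fun h1 x)
    exact IsCMField.complexConj_ne_one (K i) (AlgEquiv.ext h2)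
  obtain ⟨P, hP⟩ := Pool.Agent.W517.K3.exists_partition bar bar_bar hbne
    (fun x y => x = y) ⟨fun x => rfl, fun h => h.symm, fun h h' => h.trans h'⟩
    (fun x y h => by rw [h]) φ _ (Finset.univ : Finset κ) rfl (fun x y h => by rw [h])
  refine ⟨P, fun B hB => ?_⟩
  rcases hP B hB with ⟨k, rfl, hk⟩ | ⟨k, k', x, hkk, rfl, hk, hk'⟩ | ⟨x, hx, -⟩
  · refine ⟨⟨by simp, ?_⟩, ?_⟩
    · intro j hj j' hj'
      rw [Finset.mem_singleton.1 hj, Finset.mem_singleton.1 hj']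
    · refine ⟨e (c k) * N k, Nat.mul_pos (he _) (hN k), ?_⟩
      have h0 : ρ k = none := by
        rcases h : ρ k with _ | σ
        · rfl
        · simp [φ, h] at hk
      have h1 : (∏ j : ({k} : Finset κ), μ j) = μ k := by
        rw [Finset.prod_coe_sort ({k} : Finset κ) μ, Finset.prod_singleton]
      rw [h1, hρ k, h0, Option.elim_none, map_one, one_pow]
  · obtain ⟨i, σ⟩ := x
    have h1 : ∀ (j : κ) (i : Fin r) (σ : K i →+* Qb), φ j = some ⟨i, σ⟩ →
        c j = i ∧ μ j ^ (e i * N j) = τ (σ (α i)) ^ N j := by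
      intro j i σ hj
      have h2 := hρ j
      rcases h : ρ j with _ | σ'
      · simp [φ, h] at hj
      · have h3 : (⟨c j, σ'⟩ : Σ i, (K i →+* Qb)) = ⟨i, σ⟩ := by
          simpa [φ, h] using hj
        rw [h, Option.elim_some] at h2
        have h4 : c j = i := congrArg Sigma.fst h3
        subst h4
        have h5 : σ' = σ := eq_of_heq (Sigma.mk.inj_iff.1 h3).2
        rw [← h5]
        exact ⟨rfl, h2⟩
    obtain ⟨hc, hv⟩ := h1 k i σ hk
    obtain ⟨hc', hv'⟩ := h1 k' i (cj σ) hk'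
    refine ⟨⟨?_, ?_⟩, ?_⟩
    · rw [Finset.card_pair hkk]
    · intro j hj j' hj'
      have h2 : ∀ j ∈ ({k, k'} : Finset κ), c j = i := by
        intro j hj
        rcases Finset.mem_insert.1 hj with rfl | hj
        · exact hc
        · rw [Finset.mem_singleton.1 hj]
          exact hc'
      rw [h2 j hj, h2 j' hj']
    · refine ⟨e i * N k * N k', Nat.mul_pos (Nat.mul_pos (he i) (hN k)) (hN k'), ?_⟩
      rw [Finset.prod_coe_sort ({k, k'} : Finset κ) μ, Finset.prod_pair hkk, mul_pow,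
        pow_mul, hv, show e i * N k * N k' = e i * N k' * N k by ring, pow_mul (μ k'), hv',
        ← pow_mul, ← pow_mul, mul_comm (N k') (N k), ← mul_pow, ← map_mul,
        cj_val (H.weil i).unitary, mul_inv_cancel₀, map_one, one_pow]
      rw [ne_eq, map_eq_zero]
      exact alpha_ne (H.weil i).unitary
  · exact absurd (hex x) hx

variable {V : κ → Type} [∀ k, AddCommGroup (V k)] [∀ k, Module Ω (V k)] [AddCommGroup M]
  [Module Ω M] [FiniteDimensional Ω M]

theorem isProduct_onePlace {F₀ : IntermediateField ℚ Qb} [FiniteDimensional ℚ F₀]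
    (H : OnePlaceFamily p F₀ α) (e : Fin r → ℕ)
    (he : ∀ i, 0 < e i) (c : κ → Fin r) (F : ∀ k, V k →ₗ[Ω] V k) (G : M →ₗ[Ω] M)
    (hG : ∀ β : Ω, Module.End.HasEigenvalue G β → IsForeignOrSmall p F₀ e α β)
    (l : ∀ k, V k →ₗ[Ω] Ω) (μ : κ → Ω) (y : M) (s : ℕ)
    (hl : ∀ k x, l k (F k x) = μ k * l k x)
    (hμ : ∀ k, (∃ N : ℕ, 0 < N ∧ μ k ^ N = 1) ∨
      ∃ (σ : K (c k) →+* Ω) (N : ℕ), 0 < N ∧ μ k ^ (e (c k) * N) = σ (α (c k)) ^ N)
    (hy : y ≠ 0) (hs : 0 < s) (hGy : (G ^ s) y = (∏ k, μ k) ^ s • y) :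
    IsProduct c F G (prodM l y) := by
  classical
  obtain ⟨β, hβ, hβs⟩ := exists_eigenvalue hs hy hGy
  obtain ⟨M₀, hM₀, Q, hQ, hβQ, hQs⟩ := hG β hβ
  obtain ⟨P, hP⟩ := letters_onePlace H e he c hQ μ hμ hM₀ hβQ hQs hs hβs
  refine ⟨P, fun B => prodB l B, y, ?_, ?_, ?_⟩
  · intro B hB
    obtain ⟨⟨h1, h2⟩, t, ht, h3⟩ := hP B hB
    refine ⟨h1, h2, t, ht, fun v => ?_⟩
    rw [prodB_apply, prodB_apply]
    rw [Finset.prod_congr rfl fun k _ => eigenform_pow (hl k.1) t (v k), Finset.prod_mul_distrib,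
      Finset.prod_pow, h3, one_mul]
  · obtain ⟨t, ht, h1⟩ := prod_torsion P fun B hB => (hP B hB).2
    refine ⟨s * t, Nat.mul_pos hs ht, ?_⟩
    rw [pow_mul, eigenvector_pow hGy, ← pow_mul, mul_comm s t, pow_mul, h1, one_pow, one_smul]
  · intro v
    rw [prodM_apply, prod_block P (fun k => l k (v k)),
      Finset.prod_congr rfl fun B _ => (prodB_apply l B (fun k => v k)).symm]

/-- **Main theorem.** -/
theorem tate_onePlace {F₀ : IntermediateField ℚ Qb} [FiniteDimensional ℚ F₀]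
    (H : OnePlaceFamily p F₀ α) [∀ k, FiniteDimensional Ω (V k)] (e : Fin r → ℕ)
    (he : ∀ i, 0 < e i) (c : κ → Fin r) (F : ∀ k, V k →ₗ[Ω] V k)
    (hF : ∀ k, HasEigenvalues (e (c k)) (α (c k)) (F k)) (G : M →ₗ[Ω] M)
    (hG : ∀ β : Ω, Module.End.HasEigenvalue G β → IsForeignOrSmall p F₀ e α β)
    (f : MultilinearMap Ω V M) (hf : IsTateMap F G f) :
    f ∈ Submodule.span Ω {ψ | IsProduct c F G ψ} := by
  refine Submodule.span_mono ?_ (expand F G (fun k μ => (∃ N : ℕ, 0 < N ∧ μ ^ N = 1) ∨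
    ∃ (σ : K (c k) →+* Ω) (N : ℕ), 0 < N ∧ μ ^ (e (c k) * N) = σ (α (c k)) ^ N)
    (fun k => hF k) f hf)
  rintro ψ ⟨l, μ, y, s, h1, h2, h3, h4, h5, rfl⟩
  exact isProduct_onePlace H e he c F G hG l μ y s h1 h2 h3 h4 h5

end

end Pool.Agent.KS6_5.SP
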