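import Pool.Agent.KS6_5.SP.Core
import Pool.Agent.KS6_5.SP.Gal
import Pool.Agent.KS6_5.SP.Defs

/-!
# The relations between numbers supported at one place are trivial
-/

set_option autoImplicit false
set_option linter.unusedSectionVars false

namespace Pool.Agent.KS6_5.SP

open NumberField Polynomial Pool.Agent.TH121.KT

noncomputable section

variable {p : ℕ} [Fact p.Prime]

section one

variable {E : Type} [Field E] [NumberField E] [IsCMField E] {α : E}

theorem IsWeilZero.ne_zero (h : IsWeilZero p α) : α ≠ 0 := alpha_ne h.unitary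

theorem IsWeilZero.unit_away (h : IsWeilZero p α) (l : ℕ) [Fact l.Prime] (hl : l ≠ p)
    (y : E →+* PadicAlgCl l) : ‖y α‖ = 1 := by
  obtain ⟨a, ha⟩ := h.integral
  have hp1 : ‖(p : PadicAlgCl l)‖ = 1 := by
    have h4 : (p : PadicAlgCl l) = algebraMap ℚ_[l] (PadicAlgCl l) (p : ℚ_[l]) := by simp
    rw [h4, PadicAlgCl.norm_extends, Padic.norm_natCast_eq_one_iff]
    exact (Nat.coprime_primes (Fact.out : l.Prime) (Fact.out : p.Prime)).2 hl
  have key : ∀ y : E →+* PadicAlgCl l, ‖y α‖ ≤ 1 := by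
    intro y
    have h1 : ‖y ((p : E) ^ a * α)‖ ≤ 1 :=
      Pool.Agent.W902.TB.norm_le_one_of_isIntegral _ (ha.map y.toIntAlgHom)
    rw [map_mul, map_pow, map_natCast, norm_mul, norm_pow, hp1, one_pow, one_mul] at h1
    exact h1
  have h1 := key y
  have h2 := key (cj y)
  rw [cj_val h.unitary, norm_inv] at h2
  have h3 : 0 < ‖y α‖ := norm_pos_iff.2 ((_root_.map_ne_zero y).2 h.ne_zero)
  refine le_antisymm h1 ?_
  by_contra h4
  push Not at h4
  have := one_lt_inv₀ h3 |>.2 h4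
  linarith

/-- extension of embeddings -/
theorem exists_ext {Ω : Type*} [Field Ω] [CharZero Ω] [IsAlgClosed Ω] (σ : E →+* Qb)
    (y : E →+* Ω) : ∃ l : Qb →+* Ω, ∀ x, l (σ x) = y x := by
  let _ : Algebra E Qb := σ.toAlgebra
  let _ : Algebra E Ω := y.toAlgebra
  have _ : IsScalarTower ℚ E Qb := IsScalarTower.of_algebraMap_eq fun x =>
    (σ.toRatAlgHom.commutes x).symm
  have _ : Algebra.IsAlgebraic E Qb := Algebra.IsAlgebraic.tower_top (K := ℚ) E
  let f : Qb →ₐ[E] Ω := IsAlgClosed.lift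
  exact ⟨f.toRingHom, fun x => f.commutes x⟩

/-- the number is not a unit at some place -/
theorem IsWeilZero.exists_slope (h : IsWeilZero p α) (ι : Qb →+* PadicAlgCl p) (σ : E →+* Qb) :
    ∃ g : GQ, ‖ι (g (σ α))‖ ≠ 1 := by
  by_contra hc
  push Not at hc
  obtain ⟨r, hr, h1⟩ := torsion_of_norm (σ α) (fun l _ e => by
    by_cases hl : l = p
    · subst hl
      obtain ⟨k, hk⟩ := exists_aut ι e
      rw [hk]
      exact (hc k).le
    · exact (h.unit_away l hl (e.comp σ)).le) (fun φ => h.unitary (φ.comp σ))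
  have h2 : α ^ r = 1 := by
    apply σ.injective
    rw [map_pow, h1, map_one]
  have h3 := h.powers r hr
  rw [h2, IntermediateField.adjoin_one] at h3
  -- the field is the field of rational numbers
  have h4 : ∀ x : E, IsCMField.complexConj E x = x := by
    intro x
    have hx : x ∈ (⊥ : IntermediateField ℚ E) := by rw [h3]; trivial
    obtain ⟨q, rfl⟩ := IntermediateField.mem_bot.1 hx
    rw [eq_ratCast, map_ratCast]
  exact IsCMField.complexConj_ne_one E (AlgEquiv.ext h4)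

end one

section two

variable {E E' : Type} [Field E] [NumberField E] [IsCMField E] [Field E'] [NumberField E']
  [IsCMField E'] {α : E} {α' : E'}

/-- Kronecker: powers with the same absolute values above `p` are equal up to torsion. -/
theorem torsion_quot (h : IsWeilZero p α) (h' : IsWeilZero p α') (ι : Qb →+* PadicAlgCl p)
    (σ : E →+* Qb) (τ : E' →+* Qb) (m n : ℕ)
    (hmn : ∀ g : GQ, (m : ℝ) * Real.log ‖ι (g (σ α))‖ = n * Real.log ‖ι (g (τ α'))‖) :
    ∃ r : ℕ, 0 < r ∧ σ α ^ (m * r) = τ α' ^ (n * r) := by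
  have hσ0 : σ α ≠ 0 := (_root_.map_ne_zero σ).2 h.ne_zero
  have hτ0 : τ α' ≠ 0 := (_root_.map_ne_zero τ).2 h'.ne_zero
  obtain ⟨r, hr, h1⟩ := torsion_of_norm (σ α ^ m / τ α' ^ n) (fun l _ e => by
    by_cases hl : l = p
    · subst hl
      obtain ⟨k, hk⟩ := exists_aut ι e
      rw [hk, map_div₀, map_div₀, map_pow, map_pow, map_pow, map_pow, norm_div, norm_pow, norm_pow]
      have h3 : 0 < ‖ι (k (σ α))‖ := norm_pos_iff.2 ((_root_.map_ne_zero _).2 ((_root_.map_ne_zero _).2 hσ0))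
      have h4 : 0 < ‖ι (k (τ α'))‖ := norm_pos_iff.2 ((_root_.map_ne_zero _).2 ((_root_.map_ne_zero _).2 hτ0))
      have h5 : Real.log (‖ι (k (σ α))‖ ^ m / ‖ι (k (τ α'))‖ ^ n) = 0 := by
        rw [Real.log_div (pow_pos h3 _).ne' (pow_pos h4 _).ne', Real.log_pow, Real.log_pow, hmn,
          sub_self]
      exact (Real.eq_one_of_pos_of_log_eq_zero (by positivity) h5).le
    · rw [map_div₀, map_pow, map_pow, norm_div, norm_pow, norm_pow,
        show ‖e (σ α)‖ = 1 from h.unit_away l hl (e.comp σ),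
        show ‖e (τ α')‖ = 1 from h'.unit_away l hl (e.comp τ)]
      simp) (fun φ => by
    rw [map_div₀, map_pow, map_pow, norm_div, norm_pow, norm_pow,
      show ‖φ (σ α)‖ = 1 from h.unitary (φ.comp σ), show ‖φ (τ α')‖ = 1 from
        h'.unitary (φ.comp τ)]
    simp)
  refine ⟨r, hr, ?_⟩
  rw [div_pow, ← pow_mul, ← pow_mul, div_eq_one_iff_eq (pow_ne_zero _ hτ0)] at h1
  exact h1

/-- embeddings which agree on a power of a Weil number are equal -/
theorem emb_eq (h : IsWeilZero p α) {A : Type*} [Field A] [CharZero A] (σ τ : E →+* A) {m : ℕ}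
    (hm : 0 < m) (he : σ α ^ m = τ α ^ m) : σ = τ := by
  have h1 := h.powers m hm
  ext x
  have hx : x ∈ IntermediateField.adjoin ℚ {α ^ m} := by rw [h1]; trivial
  induction hx using IntermediateField.adjoin_induction with
  | mem x hx => rw [Set.mem_singleton_iff.1 hx, map_pow, map_pow, he]
  | algebraMap x => rw [eq_ratCast, map_ratCast, map_ratCast]
  | add x y _ _ hx hy => rw [map_add, map_add, hx, hy]
  | inv x _ hx => rw [map_inv₀, map_inv₀, hx]
  | mul x y _ _ hx hy => rw [map_mul, map_mul, hx, hy]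

/-- proportional slopes of conjugates -/
theorem prop_same (h : IsWeilZero p α) (ι : Qb →+* PadicAlgCl p) (σ τ : E →+* Qb) (c : ℝ)
    (hc : ∀ g : GQ, Real.log ‖ι (g (τ α))‖ = c * Real.log ‖ι (g (σ α))‖) :
    τ = σ ∨ τ = cj σ := by
  obtain ⟨k, hk⟩ := exists_act_eq σ τ
  -- iterate
  have hit : ∀ n : ℕ, ∀ g : GQ, Real.log ‖ι (g ((act (k ^ n) σ) α))‖ =
      c ^ n * Real.log ‖ι (g (σ α))‖ := by
    intro n
    induction n with
    | zero => intro g; simp [act_one]
    | succ n ih =>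
      intro g
      have h1 : act (k ^ (n + 1)) σ = act (k ^ n) τ := by
        rw [pow_succ, act_mul, hk]
      have h2 := hc (g * k ^ n)
      have h3 := ih g
      rw [h1]
      have h4 : Real.log ‖ι (g ((act (k ^ n) τ) α))‖ = Real.log ‖ι ((g * k ^ n) (τ α))‖ := rfl
      have h5 : Real.log ‖ι ((g * k ^ n) (σ α))‖ = Real.log ‖ι (g ((act (k ^ n) σ) α))‖ := rfl
      rw [h4, h2, h5, h3, pow_succ]
      ring
  obtain ⟨g, hg⟩ := h.exists_slope ι σ
  have hpos : 0 < ‖ι (g (σ α))‖ := norm_pos' (ι := ι) h.unitary (act g σ)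
  have hg' : Real.log ‖ι (g (σ α))‖ ≠ 0 := by
    intro h0
    exact hg (Real.eq_one_of_pos_of_log_eq_zero hpos h0)
  -- finite order
  obtain ⟨n, hn, hfix⟩ : ∃ n : ℕ, 0 < n ∧ act (k ^ n) σ = σ := by
    have hfin : Finite (E →+* Qb) := inferInstance
    obtain ⟨a, b, hab, he⟩ := Finite.exists_ne_map_eq_of_infinite (fun n : ℕ => act (k ^ n) σ)
    have key : ∀ a b : ℕ, a < b → act (k ^ a) σ = act (k ^ b) σ →
        ∃ n : ℕ, 0 < n ∧ act (k ^ n) σ = σ := by
      intro a b hab he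
      refine ⟨b - a, Nat.sub_pos_of_lt hab, ?_⟩
      have h1 : k ^ b = k ^ a * k ^ (b - a) := by rw [← pow_add, Nat.add_sub_cancel' hab.le]
      rw [h1, act_mul] at he
      have h2 := congrArg (act (k ^ a)⁻¹) he
      rw [act_inv_act, act_inv_act] at h2
      exact h2.symm
    rcases lt_or_gt_of_ne hab with h1 | h1
    · exact key a b h1 he
    · exact key b a h1 he.symm
  have h1 := hit n g
  rw [hfix] at h1
  have hcn : c ^ n = 1 := by
    have h2 : (c ^ n - 1) * Real.log ‖ι (g (σ α))‖ = 0 := by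
      rw [sub_mul, ← h1, one_mul, sub_self]
    have h3 := (mul_eq_zero.1 h2).resolve_right hg'
    linarith
  have hc1 : c = 1 ∨ c = -1 := by
    have h2 : |c| = 1 := by
      have h3 : |c| ^ n = 1 := by rw [← abs_pow, hcn, abs_one]
      exact (pow_eq_one_iff_of_nonneg (abs_nonneg c) hn.ne').1 h3
    rcases abs_cases c with ⟨h3, -⟩ | ⟨h3, -⟩
    · left; linarith
    · right; linarith
  rcases hc1 with rfl | rfl
  · left
    obtain ⟨r, hr, h2⟩ := torsion_quot h h ι τ σ 1 1 (fun g => by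
      rw [hc g]
      simp)
    rw [one_mul] at h2
    exact emb_eq h τ σ hr h2
  · right
    obtain ⟨r, hr, h2⟩ := torsion_quot h h ι τ (cj σ) 1 1 (fun g => by
      have h3 : Real.log ‖ι (g (cj σ α))‖ = - Real.log ‖ι (g (σ α))‖ := by
        rw [cj_val h.unitary, map_inv₀, map_inv₀, norm_inv, Real.log_inv]
      rw [hc g, h3]
      simp)
    rw [one_mul] at h2
    exact emb_eq h τ (cj σ) hr h2

/-- the slopes are rational multiples of `log p` -/
theorem exists_rat (h : IsWeilZero p α) (l : Qb →+* PadicAlgCl p) (σ : E →+* Qb) :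
    ∃ (n : ℕ) (z : ℤ), 0 < n ∧ (n : ℝ) * Real.log ‖l (σ α)‖ = z * Real.log p := by
  obtain ⟨n, z, hn, h1⟩ := norm_pow_eq_zpow (l (σ α))
    ((_root_.map_ne_zero l).2 ((_root_.map_ne_zero σ).2 h.ne_zero))
  refine ⟨n, z, hn, ?_⟩
  rw [← Real.log_pow, h1, Real.log_zpow]

/-- proportional slopes of different numbers -/
theorem prop_diff (h : IsWeilZero p α) (h' : IsWeilZero p α') (ι : Qb →+* PadicAlgCl p)
    (hne : ∀ (σ : E →+* Qb) (τ : E' →+* Qb) (m n : ℕ), 0 < m → 0 < n → σ α ^ m ≠ τ α' ^ n)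
    (σ : E →+* Qb) (τ : E' →+* Qb) (c : ℝ) (hc0 : c ≠ 0)
    (hc : ∀ g : GQ, Real.log ‖ι (g (τ α'))‖ = c * Real.log ‖ι (g (σ α))‖) : False := by
  obtain ⟨g, hg⟩ := h.exists_slope ι σ
  have hpos : 0 < ‖ι (g (σ α))‖ := norm_pos' (ι := ι) h.unitary (act g σ)
  have hg' : Real.log ‖ι (g (σ α))‖ ≠ 0 := by
    intro h0
    exact hg (Real.eq_one_of_pos_of_log_eq_zero hpos h0)
  have hlogp : Real.log p ≠ 0 := by
    have : (1 : ℝ) < p := by exact_mod_cast (Fact.out : p.Prime).one_lt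
    exact (Real.log_pos this).ne'
  obtain ⟨n₁, z₁, hn₁, h1⟩ := exists_rat h (ι.comp (g : Qb →+* Qb)) σ
  obtain ⟨n₂, z₂, hn₂, h2⟩ := exists_rat h' (ι.comp (g : Qb →+* Qb)) τ
  change (n₁ : ℝ) * Real.log ‖ι (g (σ α))‖ = _ at h1
  change (n₂ : ℝ) * Real.log ‖ι (g (τ α'))‖ = _ at h2
  have hn1 : (n₁ : ℝ) ≠ 0 := Nat.cast_ne_zero.2 hn₁.ne'
  have hn2 : (n₂ : ℝ) ≠ 0 := Nat.cast_ne_zero.2 hn₂.ne'
  have hz1 : (z₁ : ℝ) ≠ 0 := by
    intro h0
    rw [h0, zero_mul] at h1
    exact (mul_ne_zero hn1 hg') h1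
  have hz2 : (z₂ : ℝ) ≠ 0 := by
    intro h0
    rw [h0, zero_mul, hc] at h2
    exact (mul_ne_zero hn2 (mul_ne_zero hc0 hg')) h2
  -- `c = z₂ n₁ / (n₂ z₁)`
  have hcz : c * (n₂ * z₁) = z₂ * n₁ := by
    have h3 : (c * (n₂ * z₁) - z₂ * n₁) * Real.log p = 0 := by
      have h4 : c * n₂ * (n₁ * Real.log ‖ι (g (σ α))‖) = n₁ * (n₂ * (c *
        Real.log ‖ι (g (σ α))‖)) := by ring
      rw [h1, ← hc, h2] at h4
      linarith
    have := (mul_eq_zero.1 h3).resolve_right hlogp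
    linarith
  -- multiply
  have hrel : ∀ g : GQ, ((n₂ : ℝ) * z₁) * Real.log ‖ι (g (τ α'))‖ =
      (z₂ * n₁) * Real.log ‖ι (g (σ α))‖ := by
    intro g
    rw [hc g, ← hcz]
    ring
  have hcjlog : ∀ (σ : E →+* Qb) (g : GQ), Real.log ‖ι (g (cj σ α))‖ =
      - Real.log ‖ι (g (σ α))‖ := by
    intro σ g
    rw [cj_val h.unitary, map_inv₀, map_inv₀, norm_inv, Real.log_inv]
  have hm : 0 < n₂ * z₁.natAbs := Nat.mul_pos hn₂ (Int.natAbs_pos.2 (by exact_mod_cast hz1))
  have hn : 0 < z₂.natAbs * n₁ := Nat.mul_pos (Int.natAbs_pos.2 (by exact_mod_cast hz2)) hn₁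
  have habs : ∀ z : ℤ, ((z.natAbs : ℕ) : ℝ) = |(z : ℝ)| := by
    intro z
    rw [← Int.cast_abs, Int.abs_eq_natAbs, Int.cast_natCast]
  have hsgn : ∀ z : ℤ, |(z : ℝ)| = z ∨ |(z : ℝ)| = -z := fun z => abs_choice _
  have main : ∃ σ' : E →+* Qb, ∀ g : GQ, ((z₂.natAbs * n₁ : ℕ) : ℝ) *
      Real.log ‖ι (g (σ' α))‖ = ((n₂ * z₁.natAbs : ℕ) : ℝ) * Real.log ‖ι (g (τ α'))‖ := by
    rcases hsgn z₁ with e1 | e1 <;> rcases hsgn z₂ with e2 | e2
    · refine ⟨σ, fun g => ?_⟩
      push_cast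
      rw [habs, habs, e1, e2, hrel g]
    · refine ⟨cj σ, fun g => ?_⟩
      push_cast
      rw [habs, habs, e1, e2, hrel g, hcjlog]
      ring
    · refine ⟨cj σ, fun g => ?_⟩
      push_cast
      rw [habs, habs, e1, e2, hcjlog]
      have := hrel g
      linarith
    · refine ⟨σ, fun g => ?_⟩
      push_cast
      rw [habs, habs, e1, e2]
      have := hrel g
      linarith
  obtain ⟨σ', hσ'⟩ := main
  obtain ⟨r, hr, h3⟩ := torsion_quot h h' ι σ' τ _ _ hσ'
  exact hne σ' τ _ _ (Nat.mul_pos hn hr) (Nat.mul_pos hm hr) h3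

end two

end

end Pool.Agent.KS6_5.SP
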